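import Pool.Agent.Helper38_Strip.Problem

/-!
# Longest increasing path in a thin diagonal strip (MP_cd3e9c_pr): definitions

Discrete model: a height profile `h(0), ..., h(N)` in a strip with hard walls; at time `t` all
positions `m` with `m ≡ t mod 2` are updated by `h(m) ↦ max (h(m-1), h(m+1), h(m) + ω(t,m))`
with independent Bernoulli(`p`) variables `ω`, `p = x ^ 2`.
-/

namespace Pool.Agent.Helper38_Strip

open Finset MeasureTheory Filter Topology

/-! ### Configurations -/

/-- the step from `i` to `i + 1` is an up step (`1`) at time `t` if `t + i` is even and a down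
step (`-1`) otherwise -/
def sg (t i : ℕ) : ℤ := if (t + i) % 2 = 0 then 1 else -1

/-- a configuration: which of the `N` steps are occupied -/
abbrev Conf (N : ℕ) := Fin N → Bool

/-- a row of Bernoulli variables, one for each position `0, ..., N` -/
abbrev Row (N : ℕ) := Fin (N + 1) → Bool

/-- height of the configuration `c` at position `m` at time `t`, normalised to `0` at `0` -/
def ht {N : ℕ} (t : ℕ) (c : Conf N) (m : ℕ) : ℤ :=
  ∑ i : Fin N, if (i : ℕ) < m ∧ c i = true then sg t i else 0

/-- number of occupied steps -/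
def occ {N : ℕ} (c : Conf N) : ℕ := (univ.filter fun i => c i = true).card

/-- maximum over the positions `0, ..., N` -/
def mx (N : ℕ) (f : ℕ → ℤ) : ℤ := (range (N + 1)).sup' nonempty_range_add_one f

/-- weight of a pair of profiles with the same end points, the first above the second -/
noncomputable def pw {N : ℕ} (x : ℝ) (t : ℕ) (c d : Conf N) : ℝ :=
  if (∀ m ≤ N, ht t d m ≤ ht t c m) ∧ ht t c N = ht t d N then x ^ (occ c + occ d) else 0

/-- partition function -/
noncomputable def Zf (x : ℝ) (t N : ℕ) : ℝ := ∑ c : Conf N, ∑ d : Conf N, pw x t c d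

/-- stationary law at time `t`: law of the first profile of a weighted pair -/
noncomputable def st {N : ℕ} (x : ℝ) (t : ℕ) (c : Conf N) : ℝ :=
  (∑ d : Conf N, pw x t c d) / Zf x t N

/-- expectation with respect to the stationary law at time `t` -/
noncomputable def sE {N : ℕ} (x : ℝ) (t : ℕ) (F : Conf N → ℝ) : ℝ := ∑ c, st x t c * F c

/-! ### Dynamics -/

/-- `c i` extended by `false` -/
def cb {N : ℕ} (c : Conf N) (i : ℕ) : Bool := if h : i < N then c ⟨i, h⟩ else false

/-- `o m` extended by `false` -/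
def rb {N : ℕ} (o : Row N) (m : ℕ) : Bool := if h : m < N + 1 then o ⟨m, h⟩ else false

/-- update of the configuration at time `t` with the row `o` -/
def upd {N : ℕ} (t : ℕ) (c : Conf N) (o : Row N) : Conf N := fun i =>
  if (t + (i : ℕ)) % 2 = 0 then
    !(c i) && ((if (i : ℕ) = 0 then false else cb c (i - 1)) || rb o i)
  else
    !(c i) && (cb c (i + 1) || rb o (i + 1))

/-- increment of the height at position `0` in the update at time `t` -/
def cur {N : ℕ} (t : ℕ) (c : Conf N) (o : Row N) : ℤ :=
  if t % 2 = 0 ∧ (cb c 0 || rb o 0) = true then 1 else 0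

/-- update of a height profile at time `t` with the row `o` -/
def updH (N t : ℕ) (h : ℕ → ℤ) (o : Row N) (m : ℕ) : ℤ :=
  if (t + m) % 2 = 0 then
    max (h m + if rb o m = true then 1 else 0) (max (h (m - 1)) (h (min (m + 1) N)))
  else h m

/-- probability of a row -/
noncomputable def rowP {N : ℕ} (p : ℝ) (o : Row N) : ℝ := ∏ m, if o m = true then p else 1 - p

/-- expectation over a row -/
noncomputable def rE {N : ℕ} (p : ℝ) (F : Row N → ℝ) : ℝ := ∑ o : Row N, rowP p o * F o

/-- environment up to time `T` -/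
abbrev Env (T N : ℕ) := Fin T → Row N

/-- expectation over the environment -/
noncomputable def eE {T N : ℕ} (p : ℝ) (F : Env T N → ℝ) : ℝ :=
  ∑ ω : Env T N, (∏ t, rowP p (ω t)) * F ω

/-- heights at time `T` started from the flat profile `0` -/
def flatH (N : ℕ) : (T : ℕ) → Env T N → ℕ → ℤ
  | 0, _ => fun _ => 0
  | T + 1, ω => updH N T (flatH N T (fun s => ω s.castSucc)) (ω (Fin.last T))

/-- discrete last passage time -/
def Lf {T N : ℕ} (ω : Env T N) : ℤ := mx N (flatH N T ω)

/-- variance of the discrete last passage time -/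
noncomputable def VarD (p : ℝ) (T N : ℕ) : ℝ :=
  eE p (fun ω : Env T N => (Lf ω : ℝ) ^ 2) - (eE p (fun ω : Env T N => (Lf ω : ℝ))) ^ 2

/-- run of the configuration chain: current at position `0` and configuration at time `T` -/
def run {N : ℕ} (c : Conf N) : (T : ℕ) → Env T N → ℤ × Conf N
  | 0, _ => (0, c)
  | T + 1, ω =>
    ((run c T (fun s => ω s.castSucc)).1 +
        cur T (run c T (fun s => ω s.castSucc)).2 (ω (Fin.last T)),
      upd T (run c T (fun s => ω s.castSucc)).2 (ω (Fin.last T)))

/-! ### Martingale -/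

/-- expected maximum against an independent stationary profile -/
noncomputable def Psi {N : ℕ} (x : ℝ) (t : ℕ) (c : Conf N) : ℝ :=
  ∑ g : Conf N, st x (t + 1) g * ((mx N fun m => ht t c m + ht (t + 1) g m : ℤ) : ℝ)

/-- mean current in the update at time `t` -/
noncomputable def vv (x : ℝ) (N t : ℕ) : ℝ :=
  sE x t fun c : Conf N => rE (x ^ 2) fun o => (cur t c o : ℝ)

/-- variance of the martingale over one period (two updates) -/
noncomputable def DD (x : ℝ) (N : ℕ) : ℝ :=
  (sE x 0 fun c : Conf N => rE (x ^ 2) fun o => (cur 0 c o : ℝ) ^ 2) - vv x N 0 ^ 2 +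
    2 * ((sE x 0 fun c : Conf N => rE (x ^ 2) fun o => (cur 0 c o : ℝ) * Psi x 1 (upd 0 c o)) -
      vv x N 0 * sE x 1 fun c : Conf N => Psi x 1 c)

/-- the maximum of the sum of two independent stationary profiles -/
def YY {N : ℕ} (c g : Conf N) : ℤ := mx N fun m => ht 0 c m + ht 1 g m

/-- its second moment -/
noncomputable def K2 (x : ℝ) (N : ℕ) : ℝ :=
  ∑ c : Conf N, ∑ g : Conf N, st x 0 c * st x 1 g * (YY c g : ℝ) ^ 2

/-- the martingale -/
noncomputable def Xi {N : ℕ} (x : ℝ) (T : ℕ) (c : Conf N) (ω : Env T N) : ℝ :=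
  (run c T ω).1 + Psi x T (run c T ω).2 - Psi x 0 c - ∑ s ∈ range T, vv x N s

/-- maximal modulus of a profile -/
def AA {N : ℕ} (t : ℕ) (c : Conf N) : ℤ := mx N fun m => |ht t c m|

/-! ### Explicit functions -/

/-- coefficients of `(z - 1/z) (1 + x^2 + x (z + 1/z))^n` -/
noncomputable def Qn (x : ℝ) : ℕ → ℤ → ℝ
  | 0, m => if m = 1 then 1 else if m = -1 then -1 else 0
  | n + 1, m => (1 + x ^ 2) * Qn x n m + x * Qn x n (m + 1) + x * Qn x n (m - 1)

/-- Pfaffian of the `4 × 4` matrix `Q (X i - X j)` -/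
noncomputable def Pf (x : ℝ) (n : ℕ) (a b c d : ℤ) : ℝ :=
  Qn x n (a - b) * Qn x n (c - d) - Qn x n (a - c) * Qn x n (b - d) +
    Qn x n (a - d) * Qn x n (b - c)

/-- circle averages against `exp (X cos θ)` -/
noncomputable def bb (X : ℝ) (f : ℝ → ℝ) : ℝ :=
  (1 / (2 * Real.pi)) * ∫ θ in (-Real.pi)..Real.pi, f θ * Real.exp (X * Real.cos θ)

noncomputable def q1 (X : ℝ) : ℝ := bb X fun θ => 2 * Real.sin θ ^ 2

noncomputable def q2 (X : ℝ) : ℝ := bb X fun θ => 4 * Real.sin θ ^ 2 * Real.cos θ

/-- limiting diffusion constant as a function of `X = 2 √2 w` -/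
noncomputable def dd (X : ℝ) : ℝ :=
  8 * (2 * q1 X * bb (2 * X) (fun θ => Real.sin θ ^ 4 * Real.cos θ) -
    q2 X * bb (2 * X) (fun θ => Real.sin θ ^ 4)) / q1 X ^ 3

/-- mesh of the lattice: `N` boxes of side `del w N` span the width `w` -/
noncomputable def del (w : ℝ) (N : ℕ) : ℝ := √2 * w / N

/-- probability that a box of side `del w N` contains a Poisson point -/
noncomputable def pN (w : ℝ) (N : ℕ) : ℝ := 1 - Real.exp (-(del w N) ^ 2)

noncomputable def xN (w : ℝ) (N : ℕ) : ℝ := √(pN w N)

end Pool.Agent.Helper38_Strip
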