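import Pool.Agent.Helper38_Strip.Statements

/-!
# Module DISC of MP_cd3e9c_pr
-/

namespace Pool.Agent.Helper38_Strip

open Finset MeasureTheory Filter Topology

/-- weighted second moment norm -/
noncomputable def wn {I : Type*} [Fintype I] (μ : I → ℝ) (F : I → ℝ) : ℝ := √(∑ i, μ i * F i ^ 2)

lemma wn_eq {I : Type*} [Fintype I] (μ : I → ℝ) (hμ : ∀ i, 0 ≤ μ i) (F : I → ℝ) :
    wn μ F = ‖(WithLp.toLp 2 (fun i => √(μ i) * F i) : EuclideanSpace ℝ I)‖ := by
  rw [EuclideanSpace.norm_eq, wn]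
  congr 1
  refine Finset.sum_congr rfl fun i _ => ?_
  simp only [Real.norm_eq_abs, sq_abs, mul_pow, Real.sq_sqrt (hμ i)]

lemma wn_add_le {I : Type*} [Fintype I] (μ : I → ℝ) (hμ : ∀ i, 0 ≤ μ i) (F G : I → ℝ) :
    wn μ (fun i => F i + G i) ≤ wn μ F + wn μ G := by
  rw [wn_eq μ hμ, wn_eq μ hμ, wn_eq μ hμ]
  refine le_trans (le_of_eq ?_) (norm_add_le _ _)
  congr 1
  ext i
  simp [mul_add]

lemma wn_neg {I : Type*} [Fintype I] (μ : I → ℝ) (F : I → ℝ) :
    wn μ (fun i => - F i) = wn μ F := by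
  simp [wn]

lemma wn_mono {I : Type*} [Fintype I] (μ : I → ℝ) (hμ : ∀ i, 0 ≤ μ i) (F G : I → ℝ)
    (h : ∀ i, |F i| ≤ G i) : wn μ F ≤ wn μ G := by
  unfold wn
  refine Real.sqrt_le_sqrt (Finset.sum_le_sum fun i _ => mul_le_mul_of_nonneg_left ?_ (hμ i))
  rw [← sq_abs]
  exact pow_le_pow_left₀ (abs_nonneg _) (h i) 2

lemma wn_center {I : Type*} [Fintype I] (μ : I → ℝ) (hμ1 : ∑ i, μ i = 1)
    (F : I → ℝ) (a : ℝ) :
    wn μ (fun i => F i - ∑ j, μ j * F j) ≤ wn μ (fun i => F i - a) := by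
  unfold wn
  refine Real.sqrt_le_sqrt ?_
  set m := ∑ j, μ j * F j with hm
  have e : ∀ b : ℝ, ∑ i, μ i * (F i - b) ^ 2 = ∑ i, μ i * F i ^ 2 - 2 * b * m + b ^ 2 := by
    intro b
    have : ∀ i, μ i * (F i - b) ^ 2 = μ i * F i ^ 2 - 2 * b * (μ i * F i) + b ^ 2 * μ i :=
      fun i => by ring
    simp only [this, Finset.sum_add_distrib, Finset.sum_sub_distrib, ← Finset.mul_sum, hμ1, ← hm]
    ring
  rw [e, e]
  nlinarith [sq_nonneg (m - a)]

lemma wn_var {I : Type*} [Fintype I] (μ : I → ℝ) (hμ1 : ∑ i, μ i = 1) (F : I → ℝ) :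
    ∑ i, μ i * (F i - ∑ j, μ j * F j) ^ 2 = ∑ i, μ i * F i ^ 2 - (∑ j, μ j * F j) ^ 2 := by
  set m := ∑ j, μ j * F j with hm
  have : ∀ i, μ i * (F i - m) ^ 2 = μ i * F i ^ 2 - 2 * m * (μ i * F i) + m ^ 2 * μ i :=
    fun i => by ring
  simp only [this, Finset.sum_add_distrib, Finset.sum_sub_distrib, ← Finset.mul_sum, hμ1, ← hm]
  ring

lemma rowP_nonneg {N : ℕ} {p : ℝ} (h0 : 0 ≤ p) (h1 : p ≤ 1) (o : Row N) : 0 ≤ rowP p o := by
  unfold rowP
  refine Finset.prod_nonneg fun m _ => ?_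
  split_ifs <;> linarith

lemma sum_rowP {N : ℕ} (p : ℝ) : ∑ o : Row N, rowP p o = 1 := by
  have h := Fintype.prod_sum (fun (_ : Fin (N + 1)) (b : Bool) => if b = true then p else 1 - p)
  simp only [Fintype.sum_bool] at h
  simp only [rowP]
  rw [← h]
  simp

lemma sum_env {T N : ℕ} (p : ℝ) : ∑ ω : Env T N, (∏ t, rowP p (ω t)) = 1 := by
  have h := Fintype.prod_sum (fun (_ : Fin T) (o : Row N) => rowP p o)
  simp only [sum_rowP, Finset.prod_const_one] at h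
  exact h.symm

theorem disc (hV : VarMStatement) (hL : LawTStatement) (hC : CompStatement)
    (hM : MomYStatement) (hB : BasicStatement) : DiscStatement := by
  intro x hx0 hx1 N n hN
  obtain ⟨-, hst0, hst1, -, -, -⟩ := hB x hx0 N 0
  have hp0 : 0 ≤ x ^ 2 := by positivity
  have hp1 : x ^ 2 ≤ 1 := by nlinarith
  set T := 2 * n with hT
  let μ : Conf N × Env T N → ℝ := fun z => st x 0 z.1 * ∏ t, rowP (x ^ 2) (z.2 t)
  have hμ : ∀ z, 0 ≤ μ z := fun z =>
    mul_nonneg (hst0 z.1) (Finset.prod_nonneg fun t _ => rowP_nonneg hp0 hp1 _)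
  have hsum : ∀ F : Conf N → Env T N → ℝ,
      ∑ z, μ z * F z.1 z.2 = sE x 0 fun c => eE (x ^ 2) fun ω => F c ω := by
    intro F
    rw [Fintype.sum_prod_type]
    simp only [sE, eE, μ, Finset.mul_sum]
    refine Finset.sum_congr rfl fun c _ => Finset.sum_congr rfl fun ω _ => by ring
  have hconst : ∀ F : Env T N → ℝ, (sE x 0 fun _ : Conf N => eE (x ^ 2) fun ω => F ω) =
      eE (x ^ 2) fun ω => F ω := by
    intro F
    simp only [sE, ← Finset.sum_mul, hst1, one_mul]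
  have hμ1 : ∑ z, μ z = 1 := by
    have := hsum fun _ _ => 1
    simp only [mul_one] at this
    rw [this, hconst]
    simp only [eE, mul_one]
    exact sum_env _
  -- the variables
  let L : Conf N × Env T N → ℝ := fun z => (Lf z.2 : ℝ)
  let X : Conf N × Env T N → ℝ := fun z => Xi x T z.1 z.2
  let Z : Conf N × Env T N → ℝ := fun z => L z - X z
  obtain ⟨hX2, hX1⟩ := hV x hx0 hx1 N n hN
  have hXn : √(n * DD x N) = wn μ X := by
    rw [wn, hsum fun c ω => Xi x T c ω ^ 2, hX2]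
  have hXm : ∑ z, μ z * X z = 0 := by
    rw [hsum fun c ω => Xi x T c ω, hX1]
  have hLm : ∑ z, μ z * L z = eE (x ^ 2) fun ω : Env T N => (Lf ω : ℝ) := by
    rw [hsum fun _ ω => (Lf ω : ℝ), hconst]
  have hZm : ∑ z, μ z * Z z = ∑ z, μ z * L z := by
    simp only [Z, mul_sub, Finset.sum_sub_distrib, hXm, sub_zero]
  have hLn : √(VarD (x ^ 2) T N) = wn μ (fun z => L z - ∑ z, μ z * L z) := by
    rw [wn, wn_var μ hμ1 L, hLm, hsum fun _ ω => (Lf ω : ℝ) ^ 2, hconst, VarD]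
  have h1 : wn μ (fun z => L z - ∑ z, μ z * L z) ≤
      wn μ X + wn μ (fun z => Z z - ∑ z, μ z * Z z) := by
    refine le_trans (le_of_eq ?_) (wn_add_le μ hμ _ _)
    congr 1
    funext z
    rw [hZm]
    simp only [Z]
    ring
  have h2 : wn μ X ≤ wn μ (fun z => L z - ∑ z, μ z * L z) +
      wn μ (fun z => Z z - ∑ z, μ z * Z z) := by
    rw [← wn_neg μ (fun z => Z z - ∑ z, μ z * Z z)]
    refine le_trans (le_of_eq ?_) (wn_add_le μ hμ _ _)
    congr 1
    funext z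
    rw [hZm]
    simp only [Z]
    ring
  have hA : ∀ t, (sE x t fun c : Conf N => (AA t c : ℝ) ^ 2) ≤ 4 * K2 x N + 4 :=
    fun t => (hM x hx0 hx1 N t hN).2
  have hP : ∀ t, (sE x t fun c : Conf N => Psi x t c ^ 2) ≤ K2 x N :=
    fun t => (hM x hx0 hx1 N t hN).1
  have hK : 0 ≤ K2 x N := by
    refine le_trans ?_ (hP 0)
    exact Finset.sum_nonneg fun c _ => mul_nonneg (hst0 c) (sq_nonneg _)
  have n1 : wn μ (fun z => (AA 0 z.1 : ℝ)) ≤ √(4 * K2 x N + 4) := by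
    refine Real.sqrt_le_sqrt ?_
    rw [hsum fun c _ => (AA 0 c : ℝ) ^ 2]
    refine le_trans (le_of_eq ?_) (hA 0)
    simp only [sE, eE, ← Finset.sum_mul, sum_env, one_mul]
  have n2 : wn μ (fun z => (AA T (run z.1 T z.2).2 : ℝ)) ≤ √(4 * K2 x N + 4) := by
    refine Real.sqrt_le_sqrt ?_
    rw [hsum fun c ω => (AA T (run c T ω).2 : ℝ) ^ 2,
      hL x hx0 hx1 N T hN fun c => (AA T c : ℝ) ^ 2]
    exact hA T
  have n3 : wn μ (fun z => Psi x 0 z.1) ≤ √(K2 x N) := by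
    refine Real.sqrt_le_sqrt ?_
    rw [hsum fun c _ => Psi x 0 c ^ 2]
    refine le_trans (le_of_eq ?_) (hP 0)
    simp only [sE, eE, ← Finset.sum_mul, sum_env, one_mul]
  have n4 : wn μ (fun z => Psi x T (run z.1 T z.2).2) ≤ √(K2 x N) := by
    refine Real.sqrt_le_sqrt ?_
    rw [hsum fun c ω => Psi x T (run c T ω).2 ^ 2,
      hL x hx0 hx1 N T hN fun c => Psi x T c ^ 2]
    exact hP T
  have h3 : wn μ (fun z => Z z - ∑ z, μ z * Z z) ≤ 6 * √(K2 x N + 1) := by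
    have a1 : wn μ (fun z => Z z - ∑ z, μ z * Z z) ≤
        wn μ (fun z => Z z - ∑ s ∈ range T, vv x N s) := wn_center μ hμ1 Z _
    have a2 : wn μ (fun z => Z z - ∑ s ∈ range T, vv x N s) ≤
        wn μ (fun z => (L z - (run z.1 T z.2).1)) +
          wn μ (fun z => Psi x 0 z.1 + - Psi x T (run z.1 T z.2).2) := by
      refine le_trans (le_of_eq ?_) (wn_add_le μ hμ _ _)
      congr 1
      funext z
      simp only [Z, L, X, Xi]
      ring
    have a3 : wn μ (fun z => Psi x 0 z.1 + - Psi x T (run z.1 T z.2).2) ≤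
        √(K2 x N) + √(K2 x N) := by
      refine le_trans (wn_add_le μ hμ _ _) (add_le_add n3 ?_)
      rw [wn_neg]
      exact n4
    have a4 : wn μ (fun z => (L z - (run z.1 T z.2).1)) ≤
        √(4 * K2 x N + 4) + √(4 * K2 x N + 4) := by
      refine le_trans (wn_mono μ hμ _ (fun z => (AA 0 z.1 : ℝ) + (AA T (run z.1 T z.2).2 : ℝ))
        fun z => ?_) (le_trans (wn_add_le μ hμ _ _) (add_le_add n1 n2))
      have := hC N T hN z.1 z.2
      simp only [L]
      exact_mod_cast this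
    have a5 : √(4 * K2 x N + 4) = 2 * √(K2 x N + 1) := by
      rw [show 4 * K2 x N + 4 = 2 ^ 2 * (K2 x N + 1) by ring, Real.sqrt_mul (by norm_num),
        Real.sqrt_sq (by norm_num)]
    have a6 : √(K2 x N) ≤ √(K2 x N + 1) := Real.sqrt_le_sqrt (by linarith)
    linarith
  rw [hLn, hXn, abs_le]
  constructor <;> linarith

end Pool.Agent.Helper38_Strip
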