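import Pool.Agent.Helper38_Strip.Statements

/-!
# Module LIMD of MP_cd3e9c_pr
-/

namespace Pool.Agent.Helper38_Strip

open Finset MeasureTheory Filter Topology

lemma bb_const_mul (X a : ℝ) (f : ℝ → ℝ) : bb X (fun θ => a * f θ) = a * bb X f := by
  unfold bb
  simp only [mul_assoc, intervalIntegral.integral_const_mul]
  ring

lemma q1_pos (X : ℝ) : 0 < q1 X := by
  unfold q1 bb
  have hc : Continuous fun θ : ℝ => 2 * Real.sin θ ^ 2 * Real.exp (X * Real.cos θ) := by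
    fun_prop
  have h0 : ∀ a b : ℝ, IntervalIntegrable
      (fun θ : ℝ => 2 * Real.sin θ ^ 2 * Real.exp (X * Real.cos θ)) volume a b :=
    fun a b => hc.intervalIntegrable a b
  have h1 : ∫ θ in (-Real.pi)..Real.pi, 2 * Real.sin θ ^ 2 * Real.exp (X * Real.cos θ) =
      (∫ θ in (-Real.pi)..0, 2 * Real.sin θ ^ 2 * Real.exp (X * Real.cos θ)) +
        ∫ θ in (0 : ℝ)..Real.pi, 2 * Real.sin θ ^ 2 * Real.exp (X * Real.cos θ) :=
    (intervalIntegral.integral_add_adjacent_intervals (h0 _ _) (h0 _ _)).symm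
  have h2 : 0 ≤ ∫ θ in (-Real.pi)..0, 2 * Real.sin θ ^ 2 * Real.exp (X * Real.cos θ) :=
    intervalIntegral.integral_nonneg (by linarith [Real.pi_pos]) fun θ _ => by positivity
  have h3 : 0 < ∫ θ in (0 : ℝ)..Real.pi, 2 * Real.sin θ ^ 2 * Real.exp (X * Real.cos θ) := by
    refine intervalIntegral.intervalIntegral_pos_of_pos_on (h0 _ _) (fun θ hθ => ?_) Real.pi_pos
    have := Real.sin_pos_of_mem_Ioo hθ
    positivity
  have h4 : 0 < 1 / (2 * Real.pi) := by positivity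
  rw [h1]
  exact mul_pos h4 (by linarith)

theorem limD (hX : LimXStatement) (hI : LimIStatement) (hQ : LimQStatement)
    (hErr : DErrStatement) (hEY : EYStatement) (hEY1 : EY1Statement) (hPi : Pi1Statement)
    (hF : FourStatement) :
    LimDStatement := by
  intro w hw
  set X : ℝ := 2 * √2 * w with hXdef
  have hX0 : 0 < X := by positivity
  obtain ⟨hNx, hx⟩ := hX w hw
  obtain ⟨C, hC⟩ := hEY1
  have hq1 := q1_pos X
  -- basic limits; everything is indexed by the number of steps `N`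
  have hN0 : Tendsto (fun N : ℕ => (N : ℝ)) atTop atTop := tendsto_natCast_atTop_atTop
  have hinv : Tendsto (fun N : ℕ => (1 : ℝ) / N) atTop (𝓝 0) := tendsto_const_div_atTop_nhds_zero_nat 1
  have hk1 : Tendsto (fun N : ℕ => ((N - 1 : ℕ) : ℝ) / N) atTop (𝓝 1) := by
    have h : Tendsto (fun N : ℕ => 1 - (1 : ℝ) / N) atTop (𝓝 (1 - 0)) := hinv.const_sub 1
    rw [sub_zero] at h
    refine h.congr' ?_
    filter_upwards [eventually_ge_atTop 1] with N hN
    have h1 : (N : ℝ) ≠ 0 := by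
      have : (1 : ℝ) ≤ N := by exact_mod_cast hN
      positivity
    rw [Nat.cast_sub hN]
    field_simp
    simp
  have hk2 : Tendsto (fun N : ℕ => ((2 * (N - 1) : ℕ) : ℝ) / N) atTop (𝓝 2) := by
    have h := hk1.const_mul 2
    rw [mul_one] at h
    refine h.congr fun N => ?_
    push_cast
    ring
  have hk : Tendsto (fun N : ℕ => (N : ℝ) / N) atTop (𝓝 1) := by
    refine tendsto_const_nhds.congr' ?_
    filter_upwards [eventually_ge_atTop 1] with N hN
    have h1 : (N : ℝ) ≠ 0 := by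
      have : (1 : ℝ) ≤ N := by exact_mod_cast hN
      positivity
    field_simp
  have hk' : Tendsto (fun N : ℕ => ((2 * N : ℕ) : ℝ) / N) atTop (𝓝 2) := by
    have h := hk.const_mul 2
    rw [mul_one] at h
    refine h.congr fun N => ?_
    push_cast
    ring
  have hx0 : Tendsto (fun N : ℕ => xN w N) atTop (𝓝 0) := by
    have h := hNx.mul hinv
    rw [mul_zero] at h
    refine h.congr' ?_
    filter_upwards [eventually_ge_atTop 1] with N hN
    have h1 : (N : ℝ) ≠ 0 := by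
      have : (1 : ℝ) ≤ N := by exact_mod_cast hN
      positivity
    field_simp
  have hNx2 : Tendsto (fun N : ℕ => (N : ℝ) * xN w N ^ 2) atTop (𝓝 0) := by
    have h := hNx.mul hx0
    rw [mul_zero] at h
    exact h.congr fun N => by ring
  -- coefficients
  obtain ⟨hQ1, hQ2⟩ := hQ w hw (fun N => N - 1) hk1
  obtain ⟨hQ1', -⟩ := hQ w hw (fun N => N) hk
  rw [← hXdef] at hQ1 hQ2 hQ1'
  -- integrals
  have eX2 : 2 * √2 * w * 2 = 2 * X := by rw [hXdef]; ring
  have hI1 := hI w hw (fun N => 2 * (N - 1)) 2 hk2 (fun θ => 8 * Real.sin θ ^ 4 * Real.cos θ)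
    (by fun_prop)
  have hI2 := hI w hw (fun N => 2 * N) 2 hk' (fun θ => 4 * Real.sin θ ^ 4) (by fun_prop)
  have hI3 := hI w hw (fun N => 2 * (N - 1)) 2 hk2
    (fun θ => 4 * Real.sin θ ^ 2 * Real.cos (((0 : ℤ) : ℝ) * θ)) (by fun_prop)
  rw [eX2] at hI1 hI2 hI3
  set B1 : ℝ := bb (2 * X) (fun θ => Real.sin θ ^ 4 * Real.cos θ) with hB1
  set B2 : ℝ := bb (2 * X) (fun θ => Real.sin θ ^ 4) with hB2
  have e1 : bb (2 * X) (fun θ => 8 * Real.sin θ ^ 4 * Real.cos θ) = 8 * B1 := by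
    rw [hB1, ← bb_const_mul]
    congr 1
    funext θ
    ring
  have e2 : bb (2 * X) (fun θ => 4 * Real.sin θ ^ 4) = 4 * B2 := by
    rw [hB2, ← bb_const_mul]
  rw [e1] at hI1
  rw [e2] at hI2
  set J : ℝ := bb (2 * X) (fun θ => 4 * Real.sin θ ^ 2 * Real.cos (((0 : ℤ) : ℝ) * θ)) with hJ
  -- shift of the index
  have sh : ∀ {f : ℕ → ℝ} {a : ℝ}, Tendsto f atTop (𝓝 a) →
      Tendsto (fun N => f (N + 1)) atTop (𝓝 a) :=
    fun h => (tendsto_add_atTop_iff_nat 1).2 h
  rw [← tendsto_add_atTop_iff_nat 1]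
  have hNx := sh hNx
  have hNx2 := sh hNx2
  have hinv := sh hinv
  have hQ1 := sh hQ1
  have hQ2 := sh hQ2
  have hQ1' := sh hQ1'
  have hI1 := sh hI1
  have hI2 := sh hI2
  have hI3 := sh hI3
  have hx := (tendsto_add_atTop_nat 1).eventually hx
  simp only [Nat.add_sub_cancel] at hQ1 hQ2 hI1 hI3
  set x : ℕ → ℝ := fun N => xN w (N + 1) with hxdef
  have hxN : ∀ N, xN w (N + 1) = x N := fun N => rfl
  simp only [hxN] at *
  -- the three expectations
  set P : ℕ → ℝ := fun N => sE (x N) 0 fun c : Conf (N + 1) => if c 0 = true then 1 else 0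
    with hP
  set E : ℕ → ℝ := fun N => sE (x N) 0 fun c : Conf (N + 1) => Psi (x N) 0 c with hE
  set E1 : ℕ → ℝ := fun N => sE (x N) 0 fun c : Conf (N + 1) =>
    Psi (x N) 0 c * if c 0 = true then 1 else 0 with hE1
  have hPeq : ∀ᶠ N in atTop, P N = (x N * Qn (x N) N 2 + x N ^ 2 * Qn (x N) N 1) /
      Qn (x N) (N + 1) 1 := by
    filter_upwards [hx] with N hN
    exact hPi (x N) hN.1 N
  have hEeq : ∀ᶠ N in atTop, E N = ((1 / (2 * Real.pi)) * ∫ θ in (-Real.pi)..Real.pi,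
      4 * Real.sin θ ^ 4 * (1 + x N ^ 2 + 2 * x N * Real.cos θ) ^ (2 * (N + 1))) /
        Qn (x N) (N + 1) 1 ^ 2 - 3 / 2 := by
    filter_upwards [hx] with N hN
    exact hEY (x N) hN.1 (N + 1)
  -- limit of `(N + 1) P`
  have hNP : Tendsto (fun N : ℕ => ((N + 1 : ℕ) : ℝ) * P N) atTop
      (𝓝 (√2 * w * (q2 X / q1 X))) := by
    have h : Tendsto (fun N : ℕ => ((((N + 1 : ℕ) : ℝ) * x N) * Qn (x N) N 2 +
        (((N + 1 : ℕ) : ℝ) * x N ^ 2) * Qn (x N) N 1) / Qn (x N) (N + 1) 1) atTop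
        (𝓝 (((√2 * w) * q2 X + 0 * q1 X) / q1 X)) :=
      ((hNx.mul hQ2).add (hNx2.mul hQ1)).div hQ1' hq1.ne'
    have e : ((√2 * w) * q2 X + 0 * q1 X) / q1 X = √2 * w * (q2 X / q1 X) := by ring
    rw [e] at h
    refine h.congr' ?_
    filter_upwards [hPeq] with N hN
    rw [hN]
    ring
  have hP0 : Tendsto P atTop (𝓝 0) := by
    have h := hinv.mul hNP
    rw [zero_mul] at h
    refine h.congr fun N => ?_
    have h1 : ((N + 1 : ℕ) : ℝ) ≠ 0 := by positivity
    field_simp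
  have hNP2 : Tendsto (fun N : ℕ => ((N + 1 : ℕ) : ℝ) * P N ^ 2) atTop (𝓝 0) := by
    have h := hNP.mul hP0
    rw [mul_zero] at h
    exact h.congr fun N => by ring
  -- limit of `E`
  have hElim : Tendsto E atTop (𝓝 (4 * B2 / q1 X ^ 2 - 3 / 2)) := by
    have h := ((hI2.div (hQ1'.pow 2) (by positivity)).sub_const (3 / 2))
    refine h.congr' ?_
    filter_upwards [hEeq] with N hN
    rw [hN]
    rfl
  -- limit of `(N + 1) E1`
  have hNE1 : Tendsto (fun N : ℕ => ((N + 1 : ℕ) : ℝ) * E1 N) atTop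
      (𝓝 (√2 * w * ((8 * B1 - q1 X * q2 X) / q1 X ^ 2))) := by
    have h := hNx.mul (((hI1.sub (hQ1.mul hQ2))).div (hQ1'.pow 2) (by positivity))
    have h2 : Tendsto (fun N : ℕ => C * (((N + 1 : ℕ) : ℝ) * x N ^ 2) *
        (((1 / (2 * Real.pi)) * ∫ θ in (-Real.pi)..Real.pi,
          4 * Real.sin θ ^ 2 * Real.cos (((0 : ℤ) : ℝ) * θ) *
            (1 + x N ^ 2 + 2 * x N * Real.cos θ) ^ (2 * N)) /
        Qn (x N) (N + 1) 1 ^ 2)) atTop (𝓝 (C * 0 * (J / q1 X ^ 2))) :=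
      (hNx2.const_mul C).mul (hI3.div (hQ1'.pow 2) (by positivity))
    rw [mul_zero, zero_mul] at h2
    have h3 : Tendsto (fun N : ℕ => ((N + 1 : ℕ) : ℝ) * E1 N - (((N + 1 : ℕ) : ℝ) * x N) *
        ((((1 / (2 * Real.pi)) * ∫ θ in (-Real.pi)..Real.pi,
          8 * Real.sin θ ^ 4 * Real.cos θ *
            (1 + x N ^ 2 + 2 * x N * Real.cos θ) ^ (2 * N)) -
          Qn (x N) N 1 * Qn (x N) N 2) / Qn (x N) (N + 1) 1 ^ 2)) atTop (𝓝 0) := by
      refine squeeze_zero_norm' ?_ h2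
      filter_upwards [hx] with N hN
      have h4 := hC (x N) hN.1 (by nlinarith [hN.1, hN.2.1]) N
      have h5 := (hF (x N) N).2.2.2 0
      simp only [add_zero, ← sq] at h5
      rw [h5] at h4
      have h6 : (0 : ℝ) ≤ ((N + 1 : ℕ) : ℝ) := by positivity
      have h7 := mul_le_mul_of_nonneg_left h4 h6
      rw [Real.norm_eq_abs]
      refine le_trans (le_of_eq ?_) (le_trans h7 (le_of_eq ?_))
      · rw [← abs_of_nonneg h6, ← abs_mul, abs_of_nonneg h6]
        congr 1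
        ring
      · ring
    have h8 := h3.add h
    rw [zero_add] at h8
    exact h8.congr fun N => by simp only [Pi.div_apply]; ring
  -- the main term
  have hT : Tendsto (fun N : ℕ => ((N + 1 : ℕ) : ℝ) * (2 * E1 N - P N - 2 * P N * E N)) atTop
      (𝓝 (√2 * w * dd X)) := by
    have h := ((hNE1.const_mul 2).sub hNP).sub ((hNP.const_mul 2).mul hElim)
    have e : 2 * (√2 * w * ((8 * B1 - q1 X * q2 X) / q1 X ^ 2)) - √2 * w * (q2 X / q1 X) -
        2 * (√2 * w * (q2 X / q1 X)) * (4 * B2 / q1 X ^ 2 - 3 / 2) = √2 * w * dd X := by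
      rw [dd, ← hB1, ← hB2]
      have h1 : q1 X ≠ 0 := hq1.ne'
      generalize √2 * w = s
      field_simp
      ring
    rw [e] at h
    exact h.congr fun N => by ring
  -- the error term
  have hR : Tendsto (fun N : ℕ => ((N + 1 : ℕ) : ℝ) * DD (x N) (N + 1) -
      ((N + 1 : ℕ) : ℝ) * (2 * E1 N - P N - 2 * P N * E N)) atTop (𝓝 0) := by
    have h2 : Tendsto (fun N : ℕ => 10 * ((((N + 1 : ℕ) : ℝ) * x N ^ 2) +
        ((N + 1 : ℕ) : ℝ) * P N ^ 2) * (1 + E N)) atTop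
        (𝓝 (10 * (0 + 0) * (1 + (4 * B2 / q1 X ^ 2 - 3 / 2)))) :=
      ((hNx2.add hNP2).const_mul 10).mul (hElim.const_add 1)
    rw [add_zero, mul_zero, zero_mul] at h2
    refine squeeze_zero_norm' ?_ h2
    filter_upwards [hx] with N hN
    have h4 := hErr (x N) hN.1 hN.2.1 N
    have h6 : (0 : ℝ) ≤ ((N + 1 : ℕ) : ℝ) := by positivity
    have h7 := mul_le_mul_of_nonneg_left h4 h6
    rw [Real.norm_eq_abs]
    refine le_trans (le_of_eq ?_) (le_trans h7 (le_of_eq ?_))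
    · rw [← abs_of_nonneg h6, ← abs_mul, abs_of_nonneg h6]
      congr 1
      ring
    · ring
  have h := hR.add hT
  rw [zero_add] at h
  exact h.congr fun N => by ring

end Pool.Agent.Helper38_Strip
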