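import Pool.Agent.Helper38_Strip.Statements

/-!
# Module LIMK of MP_cd3e9c_pr
-/

namespace Pool.Agent.Helper38_Strip

open Finset MeasureTheory Filter Topology

theorem limK (hX : LimXStatement) (hK2 : K2BStatement) (hK3 : LimK3Statement)
    (hB : K3BStatement) : LimKStatement := by
  obtain ⟨C, X₀, hC, hX₀, h⟩ := hB
  refine ⟨3 * C, X₀, by positivity, hX₀, fun w hw => ?_⟩
  have hw0 : 0 < w := by linarith
  obtain ⟨-, hx⟩ := hX w hw0
  have h2 : (1.4 : ℝ) < √2 ∧ √2 < 1.5 := by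
    constructor
    · refine Real.lt_sqrt_of_sq_lt (by norm_num)
    · rw [Real.sqrt_lt' (by norm_num)]
      norm_num
  have hXw : X₀ ≤ 2 * √2 * w := by nlinarith [h2.1]
  have h3 := h (2 * √2 * w) hXw
  have h4 : (C * (2 * √2 * w)) ^ 3 < (3 * C * w) ^ 3 := by
    refine pow_lt_pow_left₀ ?_ (by positivity) (by norm_num)
    have : 0 < C * w := by positivity
    nlinarith [h2.2]
  have h5 := (hK3 w hw0).pow 2
  have h6 := h5.eventually_lt_const (lt_of_le_of_lt h3 h4)
  filter_upwards [h6, hx] with N h7 h8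
  have h9 := hK2 (xN w N) h8.1 N
  have h10 : K2 (xN w N) N ^ 3 < (3 * C * w) ^ 3 := lt_of_le_of_lt h9 h7
  exact (lt_of_pow_lt_pow_left₀ 3 (by positivity) h10).le

end Pool.Agent.Helper38_Strip
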