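import Pool.Agent.Helper38_Strip.Statements

/-!
# Module MAIN of MP_cd3e9c_pr
-/

namespace Pool.Agent.Helper38_Strip

open Finset MeasureTheory Filter Topology

universe u v

lemma key_bound (hD : DiscStatement) (hX : LimXStatement) (hLD : LimDStatement)
    (hP : PoisStatement.{u}) {Ω : Type u} [MeasurableSpace Ω] (P : Measure Ω)
    [IsProbabilityMeasure P] (S : Ω → Set (ℝ × ℝ)) (hS : IsPoissonProcess P S)
    (l w K : ℝ) (hl : 0 < l) (hw : 0 < w) (hK : ∀ᶠ N : ℕ in atTop, K2 (xN w N) N ≤ K) :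
    |√(ProbabilityTheory.variance (fun ω => (Lmax (S ω) l w : ℝ)) P) -
      √(l * dd (2 * √2 * w) / √2)| ≤ 6 * √(K + 1) := by
  obtain ⟨-, hV⟩ := hP Ω _ P inferInstance S hS l w hl hw
  obtain ⟨hx1, hx2⟩ := hX w hw
  have hN0 : Tendsto (fun N : ℕ => (N : ℝ)) atTop atTop := tendsto_natCast_atTop_atTop
  -- number of steps
  have hn : Tendsto (fun N : ℕ => (⌈l * N / (2 * w)⌉₊ : ℝ) / N) atTop (𝓝 (l / (2 * w))) := by
    have h := (tendsto_nat_ceil_mul_div_atTop (R := ℝ) (a := l / (2 * w)) (by positivity)).comp hN0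
    refine h.congr fun N => ?_
    simp only [Function.comp]
    rw [show l / (2 * w) * (N : ℝ) = l * N / (2 * w) by ring]
  have hD2 : Tendsto (fun N : ℕ => (⌈l * N / (2 * w)⌉₊ : ℝ) * DD (xN w N) N) atTop
      (𝓝 (l * dd (2 * √2 * w) / √2)) := by
    have h := hn.mul (hLD w hw)
    have e : l / (2 * w) * (√2 * w * dd (2 * √2 * w)) = l * dd (2 * √2 * w) / √2 := by
      have h2 : √2 * √2 = 2 := Real.mul_self_sqrt (by norm_num)
      have h2' : √2 ≠ 0 := by positivity
      generalize dd (2 * √2 * w) = D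
      field_simp
      linear_combination D * h2
    rw [e] at h
    refine h.congr' ?_
    filter_upwards [eventually_ge_atTop 1] with N hN
    have : (N : ℝ) ≠ 0 := by
      have : (1 : ℝ) ≤ N := by exact_mod_cast hN
      positivity
    field_simp
  have hlim : Tendsto (fun N : ℕ => |√(VarD (pN w N) (TN l w N) N) -
      √((⌈l * N / (2 * w)⌉₊ : ℝ) * DD (xN w N) N)|) atTop
      (𝓝 |√(ProbabilityTheory.variance (fun ω => (Lmax (S ω) l w : ℝ)) P) -
        √(l * dd (2 * √2 * w) / √2)|) :=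
    ((hV.sqrt).sub hD2.sqrt).abs
  refine le_of_tendsto hlim ?_
  filter_upwards [hx2, hK, eventually_ge_atTop 1] with N h2 hKN hN
  obtain ⟨h3, h4, h5⟩ := h2
  have h6 : xN w N < 1 := by nlinarith
  have h := hD (xN w N) h3 h6 N ⌈l * N / (2 * w)⌉₊ hN
  rw [h5] at h
  refine le_trans h ?_
  have : √(K2 (xN w N) N + 1) ≤ √(K + 1) := Real.sqrt_le_sqrt (by linarith)
  linarith

theorem main (hD : DiscStatement) (hX : LimXStatement) (hLD : LimDStatement)
    (hLK : LimKStatement) (hA : AsymStatement) (hP : PoisStatement.{u}) :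
    MainStatement.{u, v} := by
  intro Ω _ P _ S hS
  refine ⟨fun l w hl hw => (hP Ω _ P inferInstance S hS l w hl hw).1, ?_⟩
  intro ι F l w hl hw hlw
  obtain ⟨C, w₀, hC, hw₀, hK⟩ := hLK
  set V : ι → ℝ := fun i =>
    ProbabilityTheory.variance (fun ω => (Lmax (S ω) (l i) (w i) : ℝ)) P with hVdef
  have hV0 : ∀ i, 0 ≤ V i := fun i => ProbabilityTheory.variance_nonneg _ _
  set c : ℝ := 3 * √Real.pi / 2 ^ (13 / 4 : ℝ) with hc
  have hc0 : 0 ≤ c := by positivity
  set a : ι → ℝ := fun i => √(V i) * √(√(w i) / l i) with ha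
  set b : ι → ℝ := fun i => √(l i * dd (2 * √2 * w i) / √2) * √(√(w i) / l i) with hb
  -- limit of b
  have hb1 : Tendsto b F (𝓝 (√c)) := by
    have h1 : Tendsto (fun i => 2 * √2 * w i) F atTop :=
      Tendsto.const_mul_atTop (by positivity) hw
    have h2 := hA.comp h1
    have h3 : Tendsto (fun i => √((√(2 * √2 * w i) * dd (2 * √2 * w i)) /
        (√2 * √(2 * √2)))) F (𝓝 (√(3 * √Real.pi / 4 / (√2 * √(2 * √2))))) :=
      (h2.div_const _).sqrt
    have e : 3 * √Real.pi / 4 / (√2 * √(2 * √2)) = c := by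
      have h4 : (4 : ℝ) * (√2 * √(2 * √2)) = 2 ^ (13 / 4 : ℝ) := by
        have e1 : √2 = (2 : ℝ) ^ (1 / 2 : ℝ) := Real.sqrt_eq_rpow 2
        have e2 : 2 * √2 = (2 : ℝ) ^ (3 / 2 : ℝ) := by
          rw [e1]
          nth_rewrite 1 [← Real.rpow_one 2]
          rw [← Real.rpow_add (by norm_num)]
          norm_num
        have e3 : √(2 * √2) = (2 : ℝ) ^ (3 / 4 : ℝ) := by
          rw [e2, Real.sqrt_eq_rpow, ← Real.rpow_mul (by norm_num)]
          norm_num
        rw [e3, e1, ← Real.rpow_add (by norm_num)]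
        rw [show (4 : ℝ) = (2 : ℝ) ^ (2 : ℝ) by norm_num, ← Real.rpow_add (by norm_num)]
        norm_num
      rw [hc, ← h4]
      field_simp
    rw [e] at h3
    refine h3.congr' ?_
    filter_upwards [hl.eventually_gt_atTop 0, hw.eventually_gt_atTop 0] with i hli hwi
    rw [hb]
    simp only
    rw [← Real.sqrt_mul' (l i * dd (2 * √2 * w i) / √2)
      (by positivity : 0 ≤ √(w i) / l i)]
    congr 1
    rw [Real.sqrt_mul (by positivity : 0 ≤ 2 * √2) (w i)]
    have h5 : √(2 * √2) ≠ 0 := by positivity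
    have h6 : √2 ≠ 0 := by positivity
    generalize dd (2 * √2 * w i) = D
    generalize √(2 * √2) = E at h5 ⊢
    field_simp
  -- difference
  have hab : Tendsto (fun i => |a i - b i|) F (𝓝 0) := by
    have h1 : Tendsto (fun i => 6 * √((C + 1) * (w i / l i ^ (2 / 3 : ℝ)) ^ (3 / 2 : ℝ))) F
        (𝓝 (6 * √((C + 1) * 0 ^ (3 / 2 : ℝ)))) := by
      refine Tendsto.const_mul _ (Tendsto.sqrt (Tendsto.const_mul _ ?_))
      exact hlw.rpow_const (Or.inr (by norm_num))
    rw [Real.zero_rpow (by norm_num), mul_zero, Real.sqrt_zero, mul_zero] at h1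
    refine squeeze_zero' (Eventually.of_forall fun i => abs_nonneg _) ?_ h1
    filter_upwards [hl.eventually_gt_atTop 0, hw.eventually_ge_atTop w₀,
      hw.eventually_ge_atTop 1] with i hli hwi hwi1
    have hwi0 : 0 < w i := by linarith
    have h2 := key_bound hD hX hLD hP P S hS (l i) (w i) (C * w i) hli hwi0 (hK (w i) hwi)
    have h3 : |a i - b i| = |√(V i) - √(l i * dd (2 * √2 * w i) / √2)| * √(√(w i) / l i) := by
      rw [ha, hb]
      simp only
      rw [← sub_mul, abs_mul, abs_of_nonneg (Real.sqrt_nonneg (√(w i) / l i))]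
    rw [h3]
    have h4 : √(C * w i + 1) * √(√(w i) / l i) ≤
        √((C + 1) * (w i / l i ^ (2 / 3 : ℝ)) ^ (3 / 2 : ℝ)) := by
      rw [← Real.sqrt_mul' _ (by positivity)]
      refine Real.sqrt_le_sqrt ?_
      have e1 : (w i / l i ^ (2 / 3 : ℝ)) ^ (3 / 2 : ℝ) = w i * √(w i) / l i := by
        rw [Real.div_rpow hwi0.le (by positivity), ← Real.rpow_mul hli.le]
        norm_num
        rw [Real.sqrt_eq_rpow]
        nth_rewrite 2 [← Real.rpow_one (w i)]
        rw [← Real.rpow_add hwi0]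
        norm_num
      rw [e1]
      have h5 : C * w i + 1 ≤ (C + 1) * w i := by nlinarith
      calc (C * w i + 1) * (√(w i) / l i) ≤ ((C + 1) * w i) * (√(w i) / l i) :=
            mul_le_mul_of_nonneg_right h5 (by positivity)
        _ = (C + 1) * (w i * √(w i) / l i) := by ring
    calc |√(V i) - √(l i * dd (2 * √2 * w i) / √2)| * √(√(w i) / l i)
        ≤ (6 * √(C * w i + 1)) * √(√(w i) / l i) :=
          mul_le_mul_of_nonneg_right h2 (Real.sqrt_nonneg _)
      _ = 6 * (√(C * w i + 1) * √(√(w i) / l i)) := by ring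
      _ ≤ _ := by linarith
  have ha1 : Tendsto a F (𝓝 (√c)) := by
    have h := hb1.add ((tendsto_zero_iff_abs_tendsto_zero _).2 hab)
    rw [add_zero] at h
    refine h.congr fun i => by ring
  have h := ha1.mul ha1
  rw [Real.mul_self_sqrt hc0] at h
  refine h.congr' ?_
  filter_upwards [hl.eventually_gt_atTop 0, hw.eventually_gt_atTop 0] with i hli hwi
  have e1 : a i * a i = (√(V i) * √(V i)) * (√(√(w i) / l i) * √(√(w i) / l i)) := by
    rw [ha]
    ring
  rw [e1, Real.mul_self_sqrt (hV0 i), Real.mul_self_sqrt (by positivity)]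
  ring

end Pool.Agent.Helper38_Strip
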