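import Mathlib

/-!
# Longest increasing path in a thin diagonal strip (MP_cd3e9c_pr): the definitions of the problem
-/

namespace Pool.Agent.Helper38_Strip

open MeasureTheory

/-- Poisson point process of unit intensity on the plane: the numbers of points in disjoint
Borel sets of finite area are independent and Poisson distributed. -/
structure IsPoissonProcess {Ω : Type*} [MeasurableSpace Ω] (P : Measure Ω)
    (S : Ω → Set (ℝ × ℝ)) : Prop where
  meas : ∀ B : Set (ℝ × ℝ), MeasurableSet B → ∀ k : ℕ,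
    MeasurableSet {ω | (S ω ∩ B).encard = k}
  law : ∀ (n : ℕ) (B : Fin n → Set (ℝ × ℝ)), (∀ i, MeasurableSet (B i)) →
    (∀ i, volume (B i) < ⊤) → (∀ i j, i ≠ j → Disjoint (B i) (B j)) → ∀ k : Fin n → ℕ,
    P (⋂ i, {ω | (S ω ∩ B i).encard = k i}) =
      ∏ i, ENNReal.ofReal (Real.exp (-(volume (B i)).toReal) *
        (volume (B i)).toReal ^ k i / (k i).factorial)

/-- the diagonal rectangle of length `l` and width `w` -/
def rect (l w : ℝ) : Set (ℝ × ℝ) :=
  {z | 0 ≤ (z.1 + z.2) / √2 ∧ (z.1 + z.2) / √2 ≤ l ∧ 0 ≤ (z.2 - z.1) / √2 ∧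
    (z.2 - z.1) / √2 ≤ w}

/-- maximal number of points of `S` on an increasing path contained in the rectangle -/
noncomputable def Lmax (S : Set (ℝ × ℝ)) (l w : ℝ) : ℕ :=
  sSup {n : ℕ | ∃ γ : ℝ → ℝ × ℝ, ContinuousOn γ (Set.Icc 0 1) ∧ MonotoneOn γ (Set.Icc 0 1) ∧
    (∀ s ∈ Set.Icc (0 : ℝ) 1, γ s ∈ rect l w) ∧ (n : ℕ∞) ≤ (S ∩ γ '' Set.Icc 0 1).encard}

end Pool.Agent.Helper38_Strip
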