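import Pool.Agent.Helper38_Strip.Statements

/-!
# Ordered rows: modules PAIR, YLAW, YLAW1, PI1 of MP_cd3e9c_pr
-/

namespace Pool.Agent.Helper38_Strip

open Finset MeasureTheory Filter Topology

namespace Rows

lemma ht_zero {N : ℕ} (t : ℕ) (c : Conf N) : ht t c 0 = 0 := by simp [ht]

lemma sg_succ (t : ℕ) (i : ℕ) : sg (t + 1) i = - sg t i := by
  unfold sg
  split_ifs <;> omega

lemma sg_shift (t : ℕ) (i : ℕ) : sg t (i + 1) = sg (t + 1) i := by
  unfold sg
  rw [show t + (i + 1) = t + 1 + i by ring]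

lemma ht_succ_time {N : ℕ} (t : ℕ) (c : Conf N) (m : ℕ) : ht (t + 1) c m = - ht t c m := by
  unfold ht
  rw [← Finset.sum_neg_distrib]
  refine Finset.sum_congr rfl fun i _ => ?_
  rw [sg_succ]
  split_ifs <;> simp

lemma ht_cons {N : ℕ} (t : ℕ) (e : Bool) (a : Conf N) (m : ℕ) :
    ht t (Fin.cons e a : Conf (N + 1)) (m + 1) = (if e = true then sg t 0 else 0) +
      ht (t + 1) a m := by
  unfold ht
  rw [Fin.sum_univ_succ]
  congr 1
  · simp
  · refine Finset.sum_congr rfl fun i _ => ?_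
    simp [sg_shift]

lemma occ_cons {N : ℕ} (e : Bool) (a : Conf N) :
    occ (Fin.cons e a : Conf (N + 1)) = (if e = true then 1 else 0) + occ a := by
  unfold occ
  rw [Finset.card_filter, Fin.sum_univ_succ, Finset.card_filter]
  simp

lemma sum_cons {N : ℕ} (F : Conf (N + 1) → ℝ) :
    ∑ a, F a = ∑ e : Bool, ∑ a : Conf N, F (Fin.cons e a : Conf (N + 1)) := by
  rw [← (Fin.consEquiv fun _ : Fin (N + 1) => Bool).sum_comp, Fintype.sum_prod_type]
  rfl

lemma forall_le_succ {N : ℕ} {Q : ℕ → Prop} :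
    (∀ m ≤ N + 1, Q m) ↔ Q 0 ∧ ∀ m ≤ N, Q (m + 1) := by
  constructor
  · intro h
    exact ⟨h 0 (by omega), fun m hm => h (m + 1) (by omega)⟩
  · rintro ⟨h0, h1⟩ m hm
    rcases m with _ | m
    · exact h0
    · exact h1 m (by omega)

/-- weight of four rows -/
noncomputable def w4 {N : ℕ} (x : ℝ) (t : ℕ) (X1 X2 X3 X4 : ℤ) (a b c d : Conf N) : ℝ :=
  if (∀ m ≤ N, X2 + ht t b m < X1 + ht t a m ∧ X3 + ht t c m < X2 + ht t b m ∧
      X4 + ht t d m < X3 + ht t c m) ∧ X1 + ht t a N = X2 + ht t b N + 1 ∧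
      X3 + ht t c N = X4 + ht t d N + 1 then x ^ (occ a + occ b + occ c + occ d) else 0

noncomputable def G4 (x : ℝ) (t N : ℕ) (X1 X2 X3 X4 : ℤ) : ℝ :=
  ∑ a : Conf N, ∑ b : Conf N, ∑ c : Conf N, ∑ d : Conf N, w4 x t X1 X2 X3 X4 a b c d

/-- weight of two rows -/
noncomputable def w2 {N : ℕ} (x : ℝ) (t : ℕ) (X1 X2 : ℤ) (a b : Conf N) : ℝ :=
  if (∀ m ≤ N, X2 + ht t b m < X1 + ht t a m) ∧ X1 + ht t a N = X2 + ht t b N + 1
    then x ^ (occ a + occ b) else 0

noncomputable def G2 (x : ℝ) (t N : ℕ) (X1 X2 : ℤ) : ℝ :=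
  ∑ a : Conf N, ∑ b : Conf N, w2 x t X1 X2 a b

/-- the step -/
def st1 (t : ℕ) (e : Bool) : ℤ := if e = true then sg t 0 else 0

/-- the exponent -/
def ex (e : Bool) : ℕ := if e = true then 1 else 0

lemma w2_cons {N : ℕ} (x : ℝ) (t : ℕ) (X1 X2 : ℤ) (h : X2 < X1) (e1 e2 : Bool) (a b : Conf N) :
    w2 x t X1 X2 (Fin.cons e1 a : Conf (N + 1)) (Fin.cons e2 b : Conf (N + 1)) =
      x ^ (ex e1 + ex e2) * w2 x (t + 1) (X1 + st1 t e1) (X2 + st1 t e2) a b := by
  unfold w2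
  have e : ((∀ m ≤ N + 1, X2 + ht t (Fin.cons e2 b : Conf (N + 1)) m <
        X1 + ht t (Fin.cons e1 a : Conf (N + 1)) m) ∧
      X1 + ht t (Fin.cons e1 a : Conf (N + 1)) (N + 1) =
        X2 + ht t (Fin.cons e2 b : Conf (N + 1)) (N + 1) + 1) ↔
      ((∀ m ≤ N, X2 + st1 t e2 + ht (t + 1) b m < X1 + st1 t e1 + ht (t + 1) a m) ∧
        X1 + st1 t e1 + ht (t + 1) a N = X2 + st1 t e2 + ht (t + 1) b N + 1) := by
    rw [forall_le_succ]
    simp only [ht_cons, ht_zero, ← add_assoc, st1]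
    simp [h]
  rw [if_congr e rfl rfl]
  split_ifs with h1
  · rw [occ_cons, occ_cons, ← pow_add]
    congr 1
    simp only [ex]
    ring
  · simp

lemma w4_cons {N : ℕ} (x : ℝ) (t : ℕ) (X1 X2 X3 X4 : ℤ) (h1 : X2 < X1) (h2 : X3 < X2)
    (h3 : X4 < X3) (e1 e2 e3 e4 : Bool) (a b c d : Conf N) :
    w4 x t X1 X2 X3 X4 (Fin.cons e1 a : Conf (N + 1)) (Fin.cons e2 b : Conf (N + 1))
        (Fin.cons e3 c : Conf (N + 1)) (Fin.cons e4 d : Conf (N + 1)) =
      x ^ (ex e1 + ex e2 + ex e3 + ex e4) *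
        w4 x (t + 1) (X1 + st1 t e1) (X2 + st1 t e2) (X3 + st1 t e3) (X4 + st1 t e4) a b c d := by
  unfold w4
  have e : ((∀ m ≤ N + 1, X2 + ht t (Fin.cons e2 b : Conf (N + 1)) m <
        X1 + ht t (Fin.cons e1 a : Conf (N + 1)) m ∧
        X3 + ht t (Fin.cons e3 c : Conf (N + 1)) m < X2 + ht t (Fin.cons e2 b : Conf (N + 1)) m ∧
        X4 + ht t (Fin.cons e4 d : Conf (N + 1)) m < X3 + ht t (Fin.cons e3 c : Conf (N + 1)) m) ∧
      X1 + ht t (Fin.cons e1 a : Conf (N + 1)) (N + 1) =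
        X2 + ht t (Fin.cons e2 b : Conf (N + 1)) (N + 1) + 1 ∧
      X3 + ht t (Fin.cons e3 c : Conf (N + 1)) (N + 1) =
        X4 + ht t (Fin.cons e4 d : Conf (N + 1)) (N + 1) + 1) ↔
      ((∀ m ≤ N, X2 + st1 t e2 + ht (t + 1) b m < X1 + st1 t e1 + ht (t + 1) a m ∧
        X3 + st1 t e3 + ht (t + 1) c m < X2 + st1 t e2 + ht (t + 1) b m ∧
        X4 + st1 t e4 + ht (t + 1) d m < X3 + st1 t e3 + ht (t + 1) c m) ∧
        X1 + st1 t e1 + ht (t + 1) a N = X2 + st1 t e2 + ht (t + 1) b N + 1 ∧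
        X3 + st1 t e3 + ht (t + 1) c N = X4 + st1 t e4 + ht (t + 1) d N + 1) := by
    rw [forall_le_succ]
    simp only [ht_cons, ht_zero, ← add_assoc, st1]
    simp [h1, h2, h3]
  rw [if_congr e rfl rfl]
  split_ifs with h1
  · rw [occ_cons, occ_cons, occ_cons, occ_cons, ← pow_add]
    congr 1
    simp only [ex]
    ring
  · simp

lemma G2_succ (x : ℝ) (t N : ℕ) (X1 X2 : ℤ) (h : X2 < X1) :
    G2 x t (N + 1) X1 X2 = ∑ e1 : Bool, ∑ e2 : Bool,
      x ^ (ex e1 + ex e2) * G2 x (t + 1) N (X1 + st1 t e1) (X2 + st1 t e2) := by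
  unfold G2
  simp only [sum_cons, w2_cons x t X1 X2 h, Finset.mul_sum]
  refine Finset.sum_congr rfl fun e1 _ => ?_
  rw [Finset.sum_comm]

lemma G4_succ (x : ℝ) (t N : ℕ) (X1 X2 X3 X4 : ℤ) (h1 : X2 < X1) (h2 : X3 < X2)
    (h3 : X4 < X3) :
    G4 x t (N + 1) X1 X2 X3 X4 = ∑ e1 : Bool, ∑ e2 : Bool, ∑ e3 : Bool, ∑ e4 : Bool,
      x ^ (ex e1 + ex e2 + ex e3 + ex e4) *
        G4 x (t + 1) N (X1 + st1 t e1) (X2 + st1 t e2) (X3 + st1 t e3) (X4 + st1 t e4) := by
  unfold G4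
  simp only [sum_cons, w4_cons x t X1 X2 X3 X4 h1 h2 h3, Fintype.sum_bool,
    Finset.sum_add_distrib, Finset.mul_sum]

lemma G2_eq_zero (x : ℝ) (t N : ℕ) (X1 X2 : ℤ) (h : ¬ X2 < X1) : G2 x t N X1 X2 = 0 := by
  unfold G2
  refine Finset.sum_eq_zero fun a _ => Finset.sum_eq_zero fun b _ => ?_
  unfold w2
  rw [if_neg]
  rintro ⟨h1, -⟩
  have := h1 0 (by omega)
  simp only [ht_zero] at this
  omega

lemma G4_eq_zero (x : ℝ) (t N : ℕ) (X1 X2 X3 X4 : ℤ) (h : ¬ (X2 < X1 ∧ X3 < X2 ∧ X4 < X3)) :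
    G4 x t N X1 X2 X3 X4 = 0 := by
  unfold G4
  refine Finset.sum_eq_zero fun a _ => Finset.sum_eq_zero fun b _ =>
    Finset.sum_eq_zero fun c _ => Finset.sum_eq_zero fun d _ => ?_
  unfold w4
  rw [if_neg]
  rintro ⟨h1, -⟩
  have := h1 0 (by omega)
  simp only [ht_zero] at this
  omega

lemma Qn_neg (x : ℝ) (n : ℕ) : ∀ m : ℤ, Qn x n (-m) = - Qn x n m := by
  induction n with
  | zero =>
    intro m
    simp only [Qn]
    by_cases h1 : m = 1
    · subst h1
      norm_num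
    · by_cases h2 : m = -1
      · subst h2
        norm_num
      · rw [if_neg (by omega), if_neg (by omega), if_neg h1, if_neg h2]
        simp
  | succ n ih =>
    intro m
    simp only [Qn]
    rw [ih m, show -m + 1 = -(m - 1) by ring, show -m - 1 = -(m + 1) by ring, ih, ih]
    ring

lemma Qn_zero (x : ℝ) (n : ℕ) : Qn x n 0 = 0 := by
  have := Qn_neg x n 0
  simp only [neg_zero] at this
  linarith

lemma Pf_eq_zero (x : ℝ) (n : ℕ) (X1 X2 X3 X4 : ℤ) (h : X1 = X2 ∨ X2 = X3 ∨ X3 = X4) :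
    Pf x n X1 X2 X3 X4 = 0 := by
  unfold Pf
  rcases h with h | h | h
  · subst h
    simp only [sub_self, Qn_zero]
    ring
  · subst h
    simp only [sub_self, Qn_zero]
    ring
  · subst h
    simp only [sub_self, Qn_zero]
    ring

lemma sg_cases (t : ℕ) : sg t 0 = 1 ∨ sg t 0 = -1 := by
  unfold sg
  split_ifs
  · exact Or.inl rfl
  · exact Or.inr rfl

lemma Qn_step (x : ℝ) (n t : ℕ) (m : ℤ) :
    Qn x (n + 1) m = ∑ e1 : Bool, ∑ e2 : Bool,
      x ^ (ex e1 + ex e2) * Qn x n (m + st1 t e1 - st1 t e2) := by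
  simp only [Fintype.sum_bool, ex, st1, Qn]
  rcases sg_cases t with h | h
  · simp only [h, if_true]
    simp
    ring
  · simp only [h, if_true]
    simp
    ring_nf

lemma Pf_step (x : ℝ) (n t : ℕ) (X1 X2 X3 X4 : ℤ) :
    Pf x (n + 1) X1 X2 X3 X4 = ∑ e1 : Bool, ∑ e2 : Bool, ∑ e3 : Bool, ∑ e4 : Bool,
      x ^ (ex e1 + ex e2 + ex e3 + ex e4) *
        Pf x n (X1 + st1 t e1) (X2 + st1 t e2) (X3 + st1 t e3) (X4 + st1 t e4) := by
  unfold Pf
  rw [Qn_step x n t (X1 - X2), Qn_step x n t (X3 - X4), Qn_step x n t (X1 - X3),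
    Qn_step x n t (X2 - X4), Qn_step x n t (X1 - X4), Qn_step x n t (X2 - X3)]
  have e : ∀ (a b : ℤ) (e e' : Bool), a - b + st1 t e - st1 t e' = a + st1 t e - (b + st1 t e') :=
    fun a b e e' => by ring
  simp only [e, Fintype.sum_bool, pow_add]
  ring

lemma G2_eq (x : ℝ) (N : ℕ) : ∀ (t : ℕ) (X1 X2 : ℤ), X2 ≤ X1 →
    G2 x t N X1 X2 = Qn x N (X1 - X2) := by
  induction N with
  | zero =>
    intro t X1 X2 h
    unfold G2 w2
    simp only [Finset.univ_unique, Finset.sum_singleton, ht_zero]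
    simp only [Qn]
    by_cases h1 : X1 = X2 + 1
    · subst h1
      simp [occ, ht]
    · rw [if_neg (by rintro ⟨-, h2⟩; simp at h2; omega), if_neg (by omega),
        if_neg (by omega)]
  | succ N ih =>
    intro t X1 X2 h
    by_cases h0 : X2 < X1
    · rw [G2_succ x t N X1 X2 h0, Qn_step x N t]
      refine Finset.sum_congr rfl fun e1 _ => Finset.sum_congr rfl fun e2 _ => ?_
      rw [ih]
      · congr 2
        ring
      · unfold st1
        rcases sg_cases t with h | h <;> rw [h] <;> split_ifs <;> omega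
    · have : X1 = X2 := by omega
      subst this
      rw [G2_eq_zero x t _ _ _ h0, sub_self, Qn_zero]

lemma G4_eq (x : ℝ) (N : ℕ) : ∀ (t : ℕ) (X1 X2 X3 X4 : ℤ), X2 ≤ X1 → X3 ≤ X2 → X4 ≤ X3 →
    G4 x t N X1 X2 X3 X4 = Pf x N X1 X2 X3 X4 := by
  induction N with
  | zero =>
    intro t X1 X2 X3 X4 h1 h2 h3
    by_cases h0 : X2 < X1 ∧ X3 < X2 ∧ X4 < X3
    · unfold G4 w4 Pf
      simp only [Finset.univ_unique, Finset.sum_singleton]
      simp only [Qn]
      obtain ⟨a1, a2, a3⟩ := h0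
      have b1 : ¬ X1 - X3 = 1 := by omega
      have b2 : ¬ X1 - X3 = -1 := by omega
      have b3 : ¬ X1 - X4 = 1 := by omega
      have b4 : ¬ X1 - X4 = -1 := by omega
      have b5 : ¬ X1 - X2 = -1 := by omega
      have b6 : ¬ X3 - X4 = -1 := by omega
      simp only [b1, b2, b3, b4, b5, b6, if_false]
      by_cases c1 : X1 = X2 + 1
      · by_cases c2 : X3 = X4 + 1
        · have d1 : X1 - X2 = 1 := by omega
          have d2 : X3 - X4 = 1 := by omega
          rw [if_pos]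
          · simp [occ, d1, d2]
          · refine ⟨fun m hm => ?_, ?_⟩
            · simp [ht, a1, a2, a3]
            · simp [ht, c1, c2]
        · have d2 : ¬ X3 - X4 = 1 := by omega
          rw [if_neg]
          · simp [d2]
          · rintro ⟨-, -, h⟩
            simp [ht] at h
            omega
      · have d1 : ¬ X1 - X2 = 1 := by omega
        rw [if_neg]
        · simp [d1]
        · rintro ⟨-, h, -⟩
          simp [ht] at h
          omega
    · rw [G4_eq_zero x t _ _ _ _ _ h0, Pf_eq_zero]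
      omega
  | succ N ih =>
    intro t X1 X2 X3 X4 h1 h2 h3
    by_cases h0 : X2 < X1 ∧ X3 < X2 ∧ X4 < X3
    · rw [G4_succ x t N X1 X2 X3 X4 h0.1 h0.2.1 h0.2.2, Pf_step x N t]
      refine Finset.sum_congr rfl fun e1 _ => Finset.sum_congr rfl fun e2 _ =>
        Finset.sum_congr rfl fun e3 _ => Finset.sum_congr rfl fun e4 _ => ?_
      rw [ih]
      · unfold st1
        rcases sg_cases t with h | h <;> rw [h] <;> split_ifs <;> omega
      · unfold st1
        rcases sg_cases t with h | h <;> rw [h] <;> split_ifs <;> omega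
      · unfold st1
        rcases sg_cases t with h | h <;> rw [h] <;> split_ifs <;> omega
    · rw [G4_eq_zero x t _ _ _ _ _ h0, Pf_eq_zero]
      omega

lemma pw_eq {N : ℕ} (x : ℝ) (t : ℕ) (c d : Conf N) : pw x t c d = w2 x t 1 0 c d := by
  unfold pw w2
  refine if_congr ?_ rfl rfl
  constructor
  · rintro ⟨h1, h2⟩
    exact ⟨fun m hm => by have := h1 m hm; omega, by omega⟩
  · rintro ⟨h1, h2⟩
    exact ⟨fun m hm => by have := h1 m hm; omega, by omega⟩

lemma Zf_eq (x : ℝ) (t N : ℕ) : Zf x t N = Qn x N 1 := by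
  unfold Zf
  simp only [pw_eq]
  rw [← G2, G2_eq x N t 1 0 (by norm_num), sub_zero]

lemma Zf_pos (x : ℝ) (hx : 0 < x) (t N : ℕ) : 0 < Zf x t N := by
  unfold Zf
  have h : ∀ c d : Conf N, 0 ≤ pw x t c d := fun c d => by
    unfold pw
    split_ifs <;> positivity
  refine Finset.sum_pos' (fun c _ => Finset.sum_nonneg fun d _ => h c d)
    ⟨fun _ => false, Finset.mem_univ _, ?_⟩
  refine Finset.sum_pos' (fun d _ => h _ d) ⟨fun _ => false, Finset.mem_univ _, ?_⟩
  unfold pw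
  rw [if_pos ⟨fun m _ => le_rfl, rfl⟩]
  positivity

lemma sum4_comm {A B C D : Type*} [Fintype A] [Fintype B] [Fintype C] [Fintype D]
    (F : A → B → C → D → ℝ) :
    ∑ a, ∑ b, ∑ c, ∑ d, F a b c d = ∑ c, ∑ b, ∑ d, ∑ a, F a b c d := by
  calc ∑ a, ∑ b, ∑ c, ∑ d, F a b c d = ∑ b, ∑ a, ∑ c, ∑ d, F a b c d := Finset.sum_comm
    _ = ∑ b, ∑ c, ∑ a, ∑ d, F a b c d :=
        Finset.sum_congr rfl fun b _ => Finset.sum_comm
    _ = ∑ c, ∑ b, ∑ a, ∑ d, F a b c d := Finset.sum_comm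
    _ = ∑ c, ∑ b, ∑ d, ∑ a, F a b c d :=
        Finset.sum_congr rfl fun c _ => Finset.sum_congr rfl fun b _ => Finset.sum_comm

lemma YY_le_iff {N : ℕ} (c g : Conf N) (k : ℤ) :
    YY c g ≤ k ↔ ∀ m ≤ N, ht 0 c m ≤ k + ht 0 g m := by
  unfold YY mx
  rw [Finset.sup'_le_iff]
  simp only [Finset.mem_range, Nat.lt_succ_iff]
  refine forall_congr' fun m => forall_congr' fun _ => ?_
  have := ht_succ_time 0 g m
  simp only [zero_add] at this
  rw [this]
  constructor <;> intro h <;> linarith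

lemma four_eq {N : ℕ} (x : ℝ) (k : ℕ) (c d g e : Conf N) :
    pw x 0 c d * pw x 1 g e * (if YY c g ≤ k then 1 else 0) =
      w4 x 0 (k + 3) (k + 2) 1 0 e g c d := by
  have hg : ∀ m, ht 1 g m = - ht 0 g m := ht_succ_time 0 g
  have he : ∀ m, ht 1 e m = - ht 0 e m := ht_succ_time 0 e
  unfold pw w4
  by_cases h1 : (∀ m ≤ N, ht 0 d m ≤ ht 0 c m) ∧ ht 0 c N = ht 0 d N
  · by_cases h2 : (∀ m ≤ N, ht 1 e m ≤ ht 1 g m) ∧ ht 1 g N = ht 1 e N
    · by_cases h3 : YY c g ≤ k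
      · rw [if_pos h1, if_pos h2, if_pos h3, if_pos]
        · rw [mul_one, ← pow_add]
          congr 1
          ring
        · rw [YY_le_iff] at h3
          refine ⟨fun m hm => ?_, ?_, ?_⟩
          · have a1 := h1.1 m hm
            have a2 := h2.1 m hm
            have a3 := h3 m hm
            rw [hg, he] at a2
            refine ⟨?_, ?_, ?_⟩ <;> omega
          · have a2 := h2.2
            rw [hg, he] at a2
            omega
          · have a1 := h1.2
            omega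
      · rw [if_neg h3, mul_zero, if_neg]
        rintro ⟨h, -, -⟩
        apply h3
        rw [YY_le_iff]
        intro m hm
        have := (h m hm).2.1
        omega
    · rw [if_neg h2, mul_zero, zero_mul, if_neg]
      rintro ⟨h, h', -⟩
      apply h2
      refine ⟨fun m hm => ?_, ?_⟩
      · have := (h m hm).1
        rw [hg, he]
        omega
      · rw [hg, he]
        omega
  · rw [if_neg h1, zero_mul, zero_mul, if_neg]
    rintro ⟨h, -, h'⟩
    apply h1
    refine ⟨fun m hm => ?_, ?_⟩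
    · have := (h m hm).2.2
      omega
    · omega

lemma sum_four {N : ℕ} (x : ℝ) (k : ℕ) (I : Conf N → ℝ) :
    (∑ c : Conf N, ∑ g : Conf N, st x 0 c * st x 1 g *
      (I c * if YY c g ≤ k then 1 else 0)) =
    (∑ e : Conf N, ∑ g : Conf N, ∑ c : Conf N, ∑ d : Conf N,
      I c * w4 x 0 (k + 3) (k + 2) 1 0 e g c d) / Qn x N 1 ^ 2 := by
  rw [sum4_comm, Finset.sum_div]
  refine Finset.sum_congr rfl fun c _ => ?_
  rw [Finset.sum_div]
  refine Finset.sum_congr rfl fun g _ => ?_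
  unfold st
  rw [Zf_eq, Zf_eq]
  have h : ∑ d : Conf N, ∑ e : Conf N, I c * w4 x 0 (k + 3) (k + 2) 1 0 e g c d =
      (∑ d, pw x 0 c d) * (∑ e, pw x 1 g e) * (I c * if YY c g ≤ k then 1 else 0) := by
    rw [Finset.sum_mul_sum, Finset.sum_mul]
    refine Finset.sum_congr rfl fun d _ => ?_
    rw [Finset.sum_mul]
    refine Finset.sum_congr rfl fun e _ => ?_
    rw [← four_eq]
    ring
  rw [h]
  ring

end Rows

open Rows

theorem pair : PairStatement := by
  intro x hx N t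
  refine ⟨Zf_eq x t N, ?_⟩
  rw [← Zf_eq x t N]
  exact Zf_pos x hx t N

theorem yLaw : YLawStatement := by
  intro x hx N k
  have h := sum_four (N := N) x k fun _ => 1
  simp only [one_mul] at h
  rw [h, ← G4, G4_eq x N 0 _ _ _ _ (by omega) (by omega) (by omega)]
  unfold Pf
  congr 1
  rw [show (k : ℤ) + 3 - (k + 2) = 1 by ring, show (1 : ℤ) - 0 = 1 by ring,
    show (k : ℤ) + 3 - 1 = k + 2 by ring, show (k : ℤ) + 2 - 0 = k + 2 by ring,
    show (k : ℤ) + 3 - 0 = k + 3 by ring, show (k : ℤ) + 2 - 1 = k + 1 by ring]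
  ring

theorem yLaw1 : YLaw1Statement := by
  intro x hx N k
  have h := sum_four (N := N + 1) x k fun c => if c 0 = true then 1 else 0
  have e : ∀ c g : Conf (N + 1), (if c 0 = true ∧ YY c g ≤ k then (1 : ℝ) else 0) =
      (if c 0 = true then 1 else 0) * if YY c g ≤ k then 1 else 0 := by
    intro c g
    by_cases h1 : c 0 = true <;> by_cases h2 : YY c g ≤ k <;> simp [h1, h2]
  simp only [e, h]
  congr 1
  have e2 : ∀ (e1 e2 e3 e4 : Bool) (a b c d : Conf N),
      (if (Fin.cons e3 c : Conf (N + 1)) 0 = true then (1 : ℝ) else 0) *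
        w4 x 0 (k + 3) (k + 2) 1 0 (Fin.cons e1 a : Conf (N + 1)) (Fin.cons e2 b : Conf (N + 1))
          (Fin.cons e3 c : Conf (N + 1)) (Fin.cons e4 d : Conf (N + 1)) =
      (if e3 = true then x ^ (ex e1 + ex e2 + 1 + ex e4) else 0) *
        w4 x 1 (k + 3 + ex e1) (k + 2 + ex e2) 2 (ex e4) a b c d := by
    intro e1 e2 e3 e4 a b c d
    rw [w4_cons x 0 _ _ _ _ (by omega) (by omega) (by omega)]
    simp only [Fin.cons_zero]
    cases e3
    · simp
    · have hs : ∀ e, st1 0 e = ex e := by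
        intro e
        cases e <;> simp [st1, ex, sg]
      simp only [hs, ex, if_true]
      norm_num
  simp only [sum_cons, e2]
  have e3 : ∀ (e1 e2 e4 : Bool), (∑ a : Conf N, ∑ b : Conf N, ∑ c : Conf N, ∑ d : Conf N,
      x ^ (ex e1 + ex e2 + 1 + ex e4) *
        w4 x 1 (k + 3 + ex e1) (k + 2 + ex e2) 2 (ex e4) a b c d) =
      x ^ (ex e1 + ex e2 + 1 + ex e4) *
        Pf x N (k + 3 + ex e1) (k + 2 + ex e2) 2 (ex e4) := by
    intro e1 e2 e4
    simp only [← Finset.mul_sum]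
    rw [← G4, G4_eq x N 1 _ _ _ _ ?_ ?_ ?_]
    · cases e1 <;> cases e2 <;> simp [ex] <;> omega
    · cases e2 <;> simp [ex] <;> omega
    · cases e4 <;> simp [ex]
  simp only [Fintype.sum_bool, Finset.sum_add_distrib, if_true]
  simp only [Finset.sum_range_succ, Finset.sum_range_zero]
  have r := e3
  simp only [ex] at r ⊢
  have r1 := r true true true
  have r2 := r true true false
  have r3 := r true false true
  have r4 := r true false false
  have r5 := r false true true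
  have r6 := r false true false
  have r7 := r false false true
  have r8 := r false false false
  simp at r1 r2 r3 r4 r5 r6 r7 r8 ⊢
  simp only [r1, r2, r3, r4, r5, r6, r7, r8]
  ring

theorem pi1 : Pi1Statement := by
  intro x hx N
  have h1 : (∑ c : Conf (N + 1), st x 0 c * if c 0 = true then 1 else 0) =
      (∑ c : Conf (N + 1), ∑ d : Conf (N + 1),
        (if c 0 = true then 1 else 0) * w2 x 0 1 0 c d) / Qn x (N + 1) 1 := by
    rw [Finset.sum_div]
    refine Finset.sum_congr rfl fun c _ => ?_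
    unfold st
    rw [Zf_eq, ← Finset.mul_sum]
    simp only [pw_eq]
    ring
  rw [h1]
  congr 1
  have e2 : ∀ (e1 e2 : Bool) (a b : Conf N),
      (if (Fin.cons e1 a : Conf (N + 1)) 0 = true then (1 : ℝ) else 0) *
        w2 x 0 1 0 (Fin.cons e1 a : Conf (N + 1)) (Fin.cons e2 b : Conf (N + 1)) =
      (if e1 = true then x ^ (1 + ex e2) else 0) * w2 x 1 2 (ex e2) a b := by
    intro e1 e2 a b
    rw [w2_cons x 0 _ _ (by omega)]
    simp only [Fin.cons_zero]
    cases e1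
    · simp
    · have hs : ∀ e, st1 0 e = ex e := by
        intro e
        cases e <;> simp [st1, ex, sg]
      simp only [hs, ex, if_true]
      norm_num
  simp only [sum_cons, e2]
  have e3 : ∀ (e2 : Bool), (∑ a : Conf N, ∑ b : Conf N, x ^ (1 + ex e2) *
      w2 x 1 2 (ex e2) a b) = x ^ (1 + ex e2) * Qn x N (2 - ex e2) := by
    intro e2
    simp only [← Finset.mul_sum]
    rw [← G2, G2_eq x N 1 _ _ ?_]
    cases e2 <;> simp [ex]
  have r1 := e3 true
  have r2 := e3 false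
  simp only [Fintype.sum_bool, Finset.sum_add_distrib, if_true, r1, r2]
  simp [ex]
  ring

end Pool.Agent.Helper38_Strip
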