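import Pool.Agent.Helper38_Strip.Defs

/-!
# Module statements for MP_cd3e9c_pr
-/

namespace Pool.Agent.Helper38_Strip

open Finset MeasureTheory Filter Topology

/-! ### A. Discrete model, algebra -/

/-- UPDH: configuration update = height update. -/
def UpdHStatement : Prop :=
  ∀ (N t : ℕ), 1 ≤ N → ∀ (c : Conf N) (o : Row N) (m : ℕ), m ≤ N →
    cur t c o + ht (t + 1) (upd t c o) m = updH N t (ht t c) o m

/-- DUAL: updating the first profile or the second one gives the same maximum. -/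
def DualStatement : Prop :=
  ∀ (N t : ℕ), 1 ≤ N → ∀ (c g : Conf N) (o : Row N),
    (mx N fun m => cur t c o + ht (t + 1) (upd t c o) m + ht t g m) =
      mx N fun m => ht t c m + (cur t g o + ht (t + 1) (upd t g o) m)

/-- STAT: stationarity of the family `st x t` under the updates. -/
def StatStatement : Prop :=
  ∀ (x : ℝ), 0 < x → x < 1 → ∀ (N t : ℕ), 1 ≤ N → ∀ F : Conf N → ℝ,
    (sE x t fun c => rE (x ^ 2) fun o => F (upd t c o)) = sE x (t + 1) F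

/-- BASIC: elementary facts on `st`. -/
def BasicStatement : Prop :=
  ∀ (x : ℝ), 0 < x → ∀ (N t : ℕ),
    0 < Zf x t N ∧ (∀ c : Conf N, 0 ≤ st x t c) ∧ (∑ c : Conf N, st x t c = 1) ∧
    (∀ c : Conf N, st x (t + 2) c = st x t c) ∧ Zf x (t + 1) N = Zf x t N ∧
    (∀ c d : Conf N, pw x t c d = pw x (t + 1) d c)

/-- PAIR: partition function of one pair. -/
def PairStatement : Prop :=
  ∀ (x : ℝ), 0 < x → ∀ (N t : ℕ), Zf x t N = Qn x N 1 ∧ 0 < Qn x N 1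

/-- YLAW: law of the maximum (four ordered profiles, Pfaffian). -/
def YLawStatement : Prop :=
  ∀ (x : ℝ), 0 < x → ∀ (N k : ℕ),
    (∑ c : Conf N, ∑ g : Conf N, st x 0 c * st x 1 g * if YY c g ≤ k then 1 else 0) =
      (Qn x N 1 ^ 2 - Qn x N (k + 2) ^ 2 + Qn x N (k + 1) * Qn x N (k + 3)) / Qn x N 1 ^ 2

/-- YLAW1: the same on the event that the first step of the first profile is occupied. -/
def YLaw1Statement : Prop :=
  ∀ (x : ℝ), 0 < x → ∀ (N k : ℕ),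
    (∑ c : Conf (N + 1), ∑ g : Conf (N + 1),
      st x 0 c * st x 1 g * if c 0 = true ∧ YY c g ≤ k then 1 else 0) =
      (∑ a ∈ range 2, ∑ b ∈ range 2, ∑ d ∈ range 2,
        x ^ (a + b + 1 + d) * Pf x N (k + 3 + a) (k + 2 + b) 2 d) / Qn x (N + 1) 1 ^ 2

/-- PI1: probability that the first step is occupied. -/
def Pi1Statement : Prop :=
  ∀ (x : ℝ), 0 < x → ∀ (N : ℕ),
    (∑ c : Conf (N + 1), st x 0 c * if c 0 = true then 1 else 0) =
      (x * Qn x N 2 + x ^ 2 * Qn x N 1) / Qn x (N + 1) 1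

/-! ### B. Martingale -/

/-- PEQ: Poisson equation. -/
def PeqStatement : Prop :=
  ∀ (x : ℝ), 0 < x → x < 1 → ∀ (N t : ℕ), 1 ≤ N → ∀ c : Conf N,
    (rE (x ^ 2) fun o => (cur t c o : ℝ) + Psi x (t + 1) (upd t c o)) = Psi x t c + vv x N t

/-- VARM: second moment of the martingale. -/
def VarMStatement : Prop :=
  ∀ (x : ℝ), 0 < x → x < 1 → ∀ (N n : ℕ), 1 ≤ N →
    (sE x 0 fun c : Conf N => eE (x ^ 2) fun ω : Env (2 * n) N => Xi x (2 * n) c ω ^ 2) =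
      n * DD x N ∧
    (sE x 0 fun c : Conf N => eE (x ^ 2) fun ω : Env (2 * n) N => Xi x (2 * n) c ω) = 0

/-- LAWT: law of the configuration at time `T`. -/
def LawTStatement : Prop :=
  ∀ (x : ℝ), 0 < x → x < 1 → ∀ (N T : ℕ), 1 ≤ N → ∀ F : Conf N → ℝ,
    (sE x 0 fun c : Conf N => eE (x ^ 2) fun ω : Env T N => F (run c T ω).2) = sE x T F

/-- COMP: comparison of the flat and the stationary heights. -/
def CompStatement : Prop :=
  ∀ (N T : ℕ), 1 ≤ N → ∀ (c : Conf N) (ω : Env T N),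
    |Lf ω - (run c T ω).1| ≤ AA 0 c + AA T (run c T ω).2

/-- MOMY: second moments of `Psi` and of the profile. -/
def MomYStatement : Prop :=
  ∀ (x : ℝ), 0 < x → x < 1 → ∀ (N t : ℕ), 1 ≤ N →
    (sE x t fun c : Conf N => Psi x t c ^ 2) ≤ K2 x N ∧
    (sE x t fun c : Conf N => (AA t c : ℝ) ^ 2) ≤ 4 * K2 x N + 4

/-- DISC: the discrete variance theorem. -/
def DiscStatement : Prop :=
  ∀ (x : ℝ), 0 < x → x < 1 → ∀ (N n : ℕ), 1 ≤ N →
    |√(VarD (x ^ 2) (2 * n) N) - √(n * DD x N)| ≤ 6 * √(K2 x N + 1)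

/-- DERR: the one-period variance up to an error of order `x ^ 2`. -/
def DErrStatement : Prop :=
  ∀ (x : ℝ), 0 < x → x ^ 2 ≤ 1 / 2 → ∀ (N : ℕ),
    |DD x (N + 1) - (2 * (sE x 0 fun c : Conf (N + 1) => Psi x 0 c * if c 0 = true then 1 else 0) -
      (sE x 0 fun c : Conf (N + 1) => if c 0 = true then 1 else 0) -
      2 * (sE x 0 fun c : Conf (N + 1) => if c 0 = true then 1 else 0) *
        sE x 0 fun c : Conf (N + 1) => Psi x 0 c)| ≤
      10 * (x ^ 2 + (sE x 0 fun c : Conf (N + 1) => if c 0 = true then 1 else 0) ^ 2) *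
        (1 + sE x 0 fun c : Conf (N + 1) => Psi x 0 c)

/-! ### C. Fourier formulas -/

/-- FOUR: integral representations. -/
def FourStatement : Prop :=
  ∀ (x : ℝ) (n : ℕ),
    (∀ m : ℤ, Qn x n m = (1 / (2 * Real.pi)) * ∫ θ in (-Real.pi)..Real.pi,
      2 * Real.sin θ * Real.sin (m * θ) * (1 + x ^ 2 + 2 * x * Real.cos θ) ^ n) ∧
    (∀ m : ℤ, Qn x n (-m) = -Qn x n m) ∧ (∀ m : ℤ, (n : ℤ) + 1 < |m| → Qn x n m = 0) ∧
    (∀ j : ℤ, ∑ m ∈ Icc (-(n : ℤ) - 1) (n + 1), Qn x n m * Qn x n (m + j) =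
      (1 / (2 * Real.pi)) * ∫ θ in (-Real.pi)..Real.pi,
        4 * Real.sin θ ^ 2 * Real.cos (j * θ) * (1 + x ^ 2 + 2 * x * Real.cos θ) ^ (2 * n))

/-- FOUR2: the sum controlling the third moment. -/
def Four2Statement : Prop :=
  ∀ (x : ℝ) (n : ℕ),
    ∑ m ∈ Icc (-(n : ℤ) - 1) (n + 1),
      (m : ℝ) ^ 2 * (Qn x n m ^ 2 - Qn x n (m - 1) * Qn x n (m + 1)) =
    (1 / (2 * Real.pi)) * ∫ θ in (-Real.pi)..Real.pi,
      (2 * Real.sin θ ^ 2 * (2 * Real.cos θ * (1 + x ^ 2 + 2 * x * Real.cos θ) ^ n -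
        4 * n * x * Real.sin θ ^ 2 * (1 + x ^ 2 + 2 * x * Real.cos θ) ^ (n - 1)) ^ 2 -
      4 * Real.sin θ ^ 2 * Real.cos (2 * θ) * (1 + x ^ 2 + 2 * x * Real.cos θ) ^ (2 * n))

/-- EY: mean of the maximum. -/
def EYStatement : Prop :=
  ∀ (x : ℝ), 0 < x → ∀ (N : ℕ),
    (sE x 0 fun c : Conf N => Psi x 0 c) =
      ((1 / (2 * Real.pi)) * ∫ θ in (-Real.pi)..Real.pi,
        4 * Real.sin θ ^ 4 * (1 + x ^ 2 + 2 * x * Real.cos θ) ^ (2 * N)) / Qn x N 1 ^ 2 - 3 / 2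

/-- EY1: mean of the maximum on the event that the first step is occupied, up to `O(x ^ 2)`. -/
def EY1Statement : Prop :=
  ∃ C : ℝ, ∀ (x : ℝ), 0 < x → x < 1 → ∀ (N : ℕ),
    |(sE x 0 fun c : Conf (N + 1) => Psi x 0 c * if c 0 = true then 1 else 0) -
      x * ((1 / (2 * Real.pi)) * (∫ θ in (-Real.pi)..Real.pi,
        8 * Real.sin θ ^ 4 * Real.cos θ * (1 + x ^ 2 + 2 * x * Real.cos θ) ^ (2 * N)) -
        Qn x N 1 * Qn x N 2) / Qn x (N + 1) 1 ^ 2| ≤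
      C * x ^ 2 * (∑ m ∈ Icc (-(N : ℤ) - 1) (N + 1), Qn x N m ^ 2) / Qn x (N + 1) 1 ^ 2

/-- K2B: bound of the second moment of the maximum. -/
def K2BStatement : Prop :=
  ∀ (x : ℝ), 0 < x → ∀ (N : ℕ),
    K2 x N ^ 3 ≤ ((3 / 2) * (∑ m ∈ Icc (-(N : ℤ) - 1) (N + 1),
      (m : ℝ) ^ 2 * (Qn x N m ^ 2 - Qn x N (m - 1) * Qn x N (m + 1))) / Qn x N 1 ^ 2) ^ 2

/-! ### D. Limits -/

/-- LIMX: the lattice spacing. -/
def LimXStatement : Prop :=
  ∀ (w : ℝ), 0 < w →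
    Tendsto (fun N : ℕ => (N : ℝ) * xN w N) atTop (𝓝 (√2 * w)) ∧
    ∀ᶠ N : ℕ in atTop, 0 < xN w N ∧ xN w N ^ 2 ≤ 1 / 2 ∧ xN w N ^ 2 = pN w N

/-- LIMP: uniform convergence of the powers. -/
def LimPStatement : Prop :=
  ∀ (w : ℝ), 0 < w → ∀ (k : ℕ → ℕ) (a : ℝ), Tendsto (fun N => (k N : ℝ) / N) atTop (𝓝 a) →
    TendstoUniformlyOn (fun (N : ℕ) (θ : ℝ) =>
      (1 + xN w N ^ 2 + 2 * xN w N * Real.cos θ) ^ (k N))
      (fun θ => Real.exp (2 * √2 * w * a * Real.cos θ)) atTop (Set.Icc (-Real.pi) Real.pi)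

/-- LIMI: convergence of the circle integrals. -/
def LimIStatement : Prop :=
  ∀ (w : ℝ), 0 < w → ∀ (k : ℕ → ℕ) (a : ℝ), Tendsto (fun N => (k N : ℝ) / N) atTop (𝓝 a) →
    ∀ f : ℝ → ℝ, Continuous f →
      Tendsto (fun N : ℕ => (1 / (2 * Real.pi)) * ∫ θ in (-Real.pi)..Real.pi,
        f θ * (1 + xN w N ^ 2 + 2 * xN w N * Real.cos θ) ^ (k N)) atTop
        (𝓝 (bb (2 * √2 * w * a) f))

/-- LIMQ: convergence of the coefficients. -/
def LimQStatement : Prop :=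
  ∀ (w : ℝ), 0 < w → ∀ (k : ℕ → ℕ), Tendsto (fun N => (k N : ℝ) / N) atTop (𝓝 1) →
    Tendsto (fun N : ℕ => Qn (xN w N) (k N) 1) atTop (𝓝 (q1 (2 * √2 * w))) ∧
    Tendsto (fun N : ℕ => Qn (xN w N) (k N) 2) atTop (𝓝 (q2 (2 * √2 * w)))

/-- LIMD: limit of the one-period variance. -/
def LimDStatement : Prop :=
  ∀ (w : ℝ), 0 < w →
    Tendsto (fun N : ℕ => N * DD (xN w N) N) atTop (𝓝 (√2 * w * dd (2 * √2 * w)))

/-- upper bound of the third moment in the limit -/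
noncomputable def K3 (X : ℝ) : ℝ :=
  (3 / 2) * bb (2 * X) (fun θ => 8 * Real.sin θ ^ 2 * (Real.cos θ - X * Real.sin θ ^ 2) ^ 2 -
    4 * Real.sin θ ^ 2 * Real.cos (2 * θ)) / q1 X ^ 2

/-- LIMK3: the bound of the third moment converges. -/
def LimK3Statement : Prop :=
  ∀ (w : ℝ), 0 < w →
    Tendsto (fun N : ℕ => (3 / 2) * (∑ m ∈ Icc (-(N : ℤ) - 1) (N + 1),
      (m : ℝ) ^ 2 * (Qn (xN w N) N m ^ 2 - Qn (xN w N) N (m - 1) * Qn (xN w N) N (m + 1))) /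
        Qn (xN w N) N 1 ^ 2) atTop (𝓝 (K3 (2 * √2 * w)))

/-- K3B: growth of the limit. -/
def K3BStatement : Prop :=
  ∃ C X₀ : ℝ, 0 < C ∧ 0 < X₀ ∧ ∀ X ≥ X₀, K3 X ^ 2 ≤ (C * X) ^ 3

/-- LIMK: the second moments are of order `w`. -/
def LimKStatement : Prop :=
  ∃ C w₀ : ℝ, 0 < C ∧ 0 < w₀ ∧ ∀ (w : ℝ), w₀ ≤ w → ∀ᶠ N : ℕ in atTop, K2 (xN w N) N ≤ C * w

/-- LAP: Laplace asymptotics on the circle. -/
def LapStatement : Prop :=
  ∀ (j : ℕ) (f : ℝ → ℝ) (a : ℝ), Continuous f →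
    Tendsto (fun θ => f θ / θ ^ (2 * j)) (𝓝[≠] 0) (𝓝 a) →
    Tendsto (fun X : ℝ => X ^ ((j : ℝ) + 1 / 2) * Real.exp (-X) * bb X f) atTop
      (𝓝 (a * (2 ^ ((j : ℝ) - 1 / 2) * Real.Gamma ((j : ℝ) + 1 / 2) / Real.pi)))

/-- ASYM: asymptotics of the diffusion constant. -/
def AsymStatement : Prop :=
  Tendsto (fun X : ℝ => √X * dd X) atTop (𝓝 (3 * √Real.pi / 4))

/-! ### E. Deterministic geometry -/

/-- finite chain of points for the product order -/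
def PChain (A : Finset (ℝ × ℝ)) : Prop := ∀ a ∈ A, ∀ b ∈ A, a ≤ b ∨ b ≤ a

/-- PATHCHAIN: paths versus chains. -/
def PathChainStatement : Prop :=
  ∀ (S : Set (ℝ × ℝ)) (l w : ℝ), 0 < l → 0 < w → (S ∩ rect l w).Finite →
    (∃ A : Finset (ℝ × ℝ), ↑A ⊆ S ∩ rect l w ∧ PChain A ∧ A.card = Lmax S l w) ∧
    ∀ A : Finset (ℝ × ℝ), ↑A ⊆ S ∩ rect l w → PChain A → A.card ≤ Lmax S l w

/-- chain of open sites of the lattice -/
def DChain {T N : ℕ} (ω : Env T N) (A : Finset (Fin T × Fin (N + 1))) : Prop :=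
  (∀ a ∈ A, ((a.1 : ℕ) + (a.2 : ℕ)) % 2 = 0 ∧ ω a.1 a.2 = true) ∧
    ∀ a ∈ A, ∀ b ∈ A, a ≠ b →
      |((a.2 : ℕ) : ℤ) - ((b.2 : ℕ) : ℤ)| < |((a.1 : ℕ) : ℤ) - ((b.1 : ℕ) : ℤ)|

/-- LPPCHAIN: the discrete height is the length of the longest chain. -/
def LppChainStatement : Prop :=
  ∀ (N T : ℕ), 1 ≤ N → ∀ ω : Env T N,
    (∃ A : Finset (Fin T × Fin (N + 1)), DChain ω A ∧ (A.card : ℤ) = Lf ω) ∧
    ∀ A : Finset (Fin T × Fin (N + 1)), DChain ω A → (A.card : ℤ) ≤ Lf ω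

/-- the half open square of index `(i, j)` of the lattice of mesh `δ` -/
def box (δ : ℝ) (i j : ℤ) : Set (ℝ × ℝ) :=
  {z | i * δ ≤ z.1 ∧ z.1 < (i + 1) * δ ∧ j * δ ≤ z.2 ∧ z.2 < (j + 1) * δ}

/-- first index of the square attached to the site `(t, m)`; the sites with `t + m` odd, which do
not matter, get squares far away -/
def ix (T N t m : ℕ) : ℤ :=
  if (t + m) % 2 = 0 then ((t : ℤ) - m) / 2 else ((t : ℤ) - m - 1) / 2 + (T + N + 1)

/-- second index of the square attached to the site `(t, m)` -/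
def iy (t m : ℕ) : ℤ := ((t : ℤ) + m) / 2

/-- occupied squares -/
noncomputable def envS (δ : ℝ) (T N : ℕ) (S : Set (ℝ × ℝ)) : Env T N := fun t m =>
  open Classical in decide (S ∩ box δ (ix T N t m) (iy t m)).Nonempty

/-- union of the squares of the sites `(t, m)` with `t + m` even -/
def UN (δ : ℝ) (T N : ℕ) : Set (ℝ × ℝ) :=
  {z | ∃ t < T, ∃ m ≤ N, (t + m) % 2 = 0 ∧ z ∈ box δ (ix T N t m) (iy t m)}

/-- good configurations of points -/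
structure GoodS (δ : ℝ) (T N : ℕ) (l w : ℝ) (S : Set (ℝ × ℝ)) : Prop where
  sub : ∀ z ∈ S, z ∈ rect l w ↔ z ∈ UN δ T N
  sep : ∀ z ∈ S, ∀ z' ∈ S, z ∈ UN δ T N → z' ∈ UN δ T N → z ≠ z' →
    ⌊z.1 / δ⌋ ≠ ⌊z'.1 / δ⌋ ∧ ⌊z.2 / δ⌋ ≠ ⌊z'.2 / δ⌋

/-- BOXGOOD: for good configurations the two models agree. -/
def BoxGoodStatement : Prop :=
  ∀ (S : Set (ℝ × ℝ)) (l w δ : ℝ) (T N : ℕ), 0 < l → 0 < w → 0 < δ → 1 ≤ N →
    GoodS δ T N l w S → (Lmax S l w : ℤ) = Lf (envS δ T N S)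

/-- number of time steps -/
noncomputable def TN (l w : ℝ) (N : ℕ) : ℕ := 2 * ⌈l * N / (2 * w)⌉₊

/-- large square containing everything -/
def big (l w : ℝ) : Set (ℝ × ℝ) := {z | |z.1| ≤ 6 * (l + w) ∧ |z.2| ≤ 6 * (l + w)}

/-- DOM: deterministic bounds. -/
def DomStatement : Prop :=
  ∀ (S : Set (ℝ × ℝ)) (l w : ℝ) (N : ℕ), 0 < l → 0 < w → 1 ≤ N → (S ∩ big l w).Finite →
    Lmax S l w ≤ (S ∩ big l w).ncard ∧
      0 ≤ Lf (envS (del w N) (TN l w N) N S) ∧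
      Lf (envS (del w N) (TN l w N) N S) ≤ (S ∩ big l w).ncard

/-- AREA: the lattice rectangle approximates the rectangle. -/
def AreaStatement : Prop :=
  ∀ (l w : ℝ), 0 < l → 0 < w →
    MeasurableSet (rect l w) ∧ (∀ (N : ℕ), MeasurableSet (UN (del w N) (TN l w N) N)) ∧
    Tendsto (fun N : ℕ => volume ((rect l w \ UN (del w N) (TN l w N) N) ∪
      (UN (del w N) (TN l w N) N \ rect l w))) atTop (𝓝 0)

/-! ### F. Poisson process -/

universe u v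

/-- LAWBOX: law of the occupied squares. -/
def LawBoxStatement : Prop :=
  ∀ (Ω : Type u) (_ : MeasurableSpace Ω) (P : Measure Ω) (_ : IsProbabilityMeasure P)
    (S : Ω → Set (ℝ × ℝ)), IsPoissonProcess P S →
    ∀ (w : ℝ) (T N : ℕ), 0 < w → 1 ≤ N → ∀ η : Env T N,
      MeasurableSet {ω | envS (del w N) T N (S ω) = η} ∧
      P {ω | envS (del w N) T N (S ω) = η} = ENNReal.ofReal (∏ t, rowP (pN w N) (η t))

/-- BADP: the bad events have small probability. -/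
def BadPStatement : Prop :=
  ∀ (Ω : Type u) (_ : MeasurableSpace Ω) (P : Measure Ω) (_ : IsProbabilityMeasure P)
    (S : Ω → Set (ℝ × ℝ)), IsPoissonProcess P S →
    ∀ (l w : ℝ), 0 < l → 0 < w → ∃ B : ℕ → Set Ω, (∀ N, MeasurableSet (B N)) ∧
      Tendsto (fun N => P (B N)) atTop (𝓝 0) ∧
      ∀ N ≥ 1, ∀ ω ∉ B N, GoodS (del w N) (TN l w N) N l w (S ω)

/-- COUNTMOM: moments of the number of points in a bounded region. -/
def CountMomStatement : Prop :=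
  ∀ (Ω : Type u) (_ : MeasurableSpace Ω) (P : Measure Ω) (_ : IsProbabilityMeasure P)
    (S : Ω → Set (ℝ × ℝ)), IsPoissonProcess P S →
    ∀ B : Set (ℝ × ℝ), MeasurableSet B → volume B < ⊤ →
      (∀ᵐ ω ∂P, (S ω ∩ B).Finite) ∧ MemLp (fun ω => ((S ω ∩ B).ncard : ℝ)) 2 P

/-- POIS: convergence of the variance. -/
def PoisStatement : Prop :=
  ∀ (Ω : Type u) (_ : MeasurableSpace Ω) (P : Measure Ω) (_ : IsProbabilityMeasure P)
    (S : Ω → Set (ℝ × ℝ)), IsPoissonProcess P S →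
    ∀ (l w : ℝ), 0 < l → 0 < w →
      MemLp (fun ω => (Lmax (S ω) l w : ℝ)) 2 P ∧
      Tendsto (fun N : ℕ => VarD (pN w N) (TN l w N) N) atTop
        (𝓝 (ProbabilityTheory.variance (fun ω => (Lmax (S ω) l w : ℝ)) P))

/-- PEX: existence of the Poisson process (to show that the hypothesis is not void). -/
def PexStatement : Prop :=
  ∃ (Ω : Type) (_ : MeasurableSpace Ω) (P : Measure Ω) (_ : IsProbabilityMeasure P)
    (S : Ω → Set (ℝ × ℝ)), IsPoissonProcess P S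

/-- MAIN: the theorem. -/
def MainStatement : Prop :=
  ∀ (Ω : Type u) (_ : MeasurableSpace Ω) (P : Measure Ω) (_ : IsProbabilityMeasure P)
    (S : Ω → Set (ℝ × ℝ)), IsPoissonProcess P S →
    (∀ l w : ℝ, 0 < l → 0 < w → MemLp (fun ω => (Lmax (S ω) l w : ℝ)) 2 P) ∧
    ∀ (ι : Type v) (F : Filter ι) (l w : ι → ℝ), Tendsto l F atTop → Tendsto w F atTop →
      Tendsto (fun i => w i / l i ^ (2 / 3 : ℝ)) F (𝓝 0) →
      Tendsto (fun i => ProbabilityTheory.variance (fun ω => (Lmax (S ω) (l i) (w i) : ℝ)) P *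
        √(w i) / l i) F (𝓝 (3 * √Real.pi / 2 ^ (13 / 4 : ℝ)))

end Pool.Agent.Helper38_Strip
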